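import Mathlib
import Pool.Agent.BetaL.Noda

set_option autoImplicit false

namespace Pool.Agent.BetaF

open Finset Pool.Agent.MP_1e96f1_co

variable {Ω : Type*} [Fintype Ω] [DecidableEq Ω]

/-- One block of the construction.  Fix a block `B0`, a set `Y1 ⊆ B0` with `d + n + 1` points and a set
`Z0` of `n` points outside `B0`.  For `p ∈ Y1` and a point `r` outside `B0 ∪ Z0` the set
`X = (Y1.erase p) ∪ Z0 ∪ {r}` has `d + 2 n + 1` points, so there is (exactly) one block `B` with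
`|X ∩ B| ≥ d + n + 1`.  Since `|X ∩ B0| = d + n` we have `B ≠ B0`, so `|B ∩ B0| ≤ d`, hence
`|(Y1.erase p) ∩ B| ≤ d`; as `|X \ (Y1.erase p)| = n + 1` all inequalities are equalities:
`Z0 ⊆ B`, `r ∈ B`, `|(Y1.erase p) ∩ B| = d`, and `B ∩ B0 = (Y1.erase p) ∩ B` (the right side is
contained in the left side, which has at most `d` elements).  So `p ∉ B`, `B ∩ B0 ⊆ Y1`,
`|Y1 \ B| = d + n + 1 - d = n + 1`. -/
theorem t_block {Bs : Finset (Finset Ω)} {v k d n : ℕ} (hD : IsDesign Bs v k d)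
    (hB : IsBeta Bs v d (n + 1)) {B0 Y1 Z0 : Finset Ω} (hB0 : B0 ∈ Bs) (hY : Y1 ⊆ B0)
    (hYc : Y1.card = d + n + 1) (hZ : Disjoint Z0 B0) (hZc : Z0.card = n) {p r : Ω} (hp : p ∈ Y1)
    (hr : r ∉ B0) (hr' : r ∉ Z0) :
    ∃ B ∈ Bs, B ≠ B0 ∧ Z0 ⊆ B ∧ r ∈ B ∧ p ∉ B ∧ B ∩ B0 ⊆ Y1 ∧ (Y1 ∩ B).card = d ∧
      (Y1 \ B).card = n + 1 := by
  obtain ⟨W, hW⟩ : ∃ W, W = Y1.erase p := ⟨_, rfl⟩
  have hWY : W ⊆ Y1 := by
    rw [hW]
    exact Finset.erase_subset _ _
  have hWc : W.card = d + n := by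
    rw [hW, Finset.card_erase_of_mem hp, hYc]
    rfl
  have hWB0 : W ⊆ B0 := hWY.trans hY
  have hd1 : Disjoint W Z0 := (hZ.mono_right hWB0).symm
  have hd2 : Disjoint (W ∪ Z0) {r} := by
    rw [Finset.disjoint_singleton_right, Finset.mem_union, not_or]
    exact ⟨fun h => hr (hWB0 h), hr'⟩
  have hXc : (W ∪ Z0 ∪ {r}).card = d + 2 * (n + 1) - 1 := by
    rw [Finset.card_union_of_disjoint hd2, Finset.card_union_of_disjoint hd1, hWc, hZc,
      Finset.card_singleton]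
    omega
  obtain ⟨B, ⟨hBs, hBX⟩, _⟩ := hB.2.2 _ hXc
  have hsplit : ∀ C : Finset Ω, ((W ∪ Z0 ∪ {r}) ∩ C).card =
      (W ∩ C).card + (Z0 ∩ C).card + ({r} ∩ C).card := by
    intro C
    rw [Finset.union_inter_distrib_right, Finset.union_inter_distrib_right,
      Finset.card_union_of_disjoint, Finset.card_union_of_disjoint]
    · exact hd1.mono Finset.inter_subset_left Finset.inter_subset_left
    · rw [← Finset.union_inter_distrib_right]
      exact hd2.mono Finset.inter_subset_left Finset.inter_subset_left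
  have hrc : ∀ C : Finset Ω, ({r} ∩ C).card ≤ 1 := fun C =>
    (Finset.card_le_card Finset.inter_subset_left).trans (Finset.card_singleton r).le
  have hZC : ∀ C : Finset Ω, (Z0 ∩ C).card ≤ n := fun C =>
    (Finset.card_le_card Finset.inter_subset_left).trans hZc.le
  have hBne : B ≠ B0 := by
    rintro rfl
    rw [hsplit] at hBX
    have e1 : (Z0 ∩ B).card = 0 := by
      rw [Finset.card_eq_zero]
      exact Finset.disjoint_iff_inter_eq_empty.1 hZ
    have e2 : ({r} ∩ B).card = 0 := by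
      rw [Finset.card_eq_zero, Finset.singleton_inter_of_notMem hr]
    have e3 : (W ∩ B).card ≤ W.card := Finset.card_le_card Finset.inter_subset_left
    omega
  have hint : (B ∩ B0).card ≤ d := hD.inter_le B hBs B0 hB0 hBne
  have hsub : W ∩ B ⊆ B ∩ B0 := by
    intro x hx
    rw [Finset.mem_inter] at hx ⊢
    exact ⟨hx.2, hWB0 hx.1⟩
  have hWB : (W ∩ B).card ≤ d := (Finset.card_le_card hsub).trans hint
  rw [hsplit] at hBX
  have h1 := hrc B
  have h2 := hZC B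
  have h3 : (W ∩ B).card = d := by omega
  have h4 : (Z0 ∩ B).card = n := by omega
  have h5 : ({r} ∩ B).card = 1 := by omega
  have hZB : Z0 ⊆ B := by
    rw [← Finset.inter_eq_left]
    exact Finset.eq_of_subset_of_card_le Finset.inter_subset_left (by omega)
  have hrB : r ∈ B := by
    by_contra hcon
    rw [Finset.singleton_inter_of_notMem hcon, Finset.card_empty] at h5
    omega
  have heq : W ∩ B = B ∩ B0 := Finset.eq_of_subset_of_card_le hsub (by omega)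
  have hBB0 : B ∩ B0 ⊆ Y1 := by
    rw [← heq]
    exact Finset.inter_subset_left.trans hWY
  have hpB : p ∉ B := by
    intro hpB
    have h6 : p ∈ B ∩ B0 := Finset.mem_inter.2 ⟨hpB, hY hp⟩
    rw [← heq, Finset.mem_inter, hW] at h6
    exact Finset.notMem_erase p Y1 h6.1
  have hYB : Y1 ∩ B = W ∩ B := by
    apply Finset.Subset.antisymm
    · rw [heq]
      intro x hx
      rw [Finset.mem_inter] at hx ⊢
      exact ⟨hx.2, hY hx.1⟩
    · exact Finset.inter_subset_inter_right hWY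
  have hYBc : (Y1 ∩ B).card = d := by rw [hYB, h3]
  refine ⟨B, hBs, hBne, hZB, hrB, hpB, hBB0, hYBc, ?_⟩
  have h7 := Finset.card_sdiff_add_card_inter Y1 B
  omega

/-- Two such blocks.  `|B ∩ C| ≤ d` and `B ∩ C` contains the disjoint sets `Z0` (`n` points),
`Y1 \ ((Y1 \ B) ∪ (Y1 \ C))` (`d + n + 1 - 2 (n + 1) + |(Y1 \ B) ∩ (Y1 \ C)|` points) and
`((B \ B0) \ Z0) ∩ ((C \ B0) \ Z0)`. -/
theorem t_two {Bs : Finset (Finset Ω)} {v k d n : ℕ} (hD : IsDesign Bs v k d)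
    {B0 Y1 Z0 B C : Finset Ω} (hY : Y1 ⊆ B0) (hYc : Y1.card = d + n + 1) (hZ : Disjoint Z0 B0)
    (hZc : Z0.card = n) (hBs : B ∈ Bs) (hCs : C ∈ Bs) (hne : B ≠ C) (hBZ : Z0 ⊆ B) (hCZ : Z0 ⊆ C)
    (hBc : (Y1 \ B).card = n + 1) (hCc : (Y1 \ C).card = n + 1) :
    ((Y1 \ B) ∩ (Y1 \ C)).card + (((B \ B0) \ Z0) ∩ ((C \ B0) \ Z0)).card ≤ 1 := by
  have hint : (B ∩ C).card ≤ d := hD.inter_le B hBs C hCs hne
  obtain ⟨D, hDd⟩ : ∃ D, D = ((B \ B0) \ Z0) ∩ ((C \ B0) \ Z0) := ⟨_, rfl⟩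
  have hDmem : ∀ x ∈ D, x ∈ B ∧ x ∈ C ∧ x ∉ B0 ∧ x ∉ Z0 := by
    intro x hx
    rw [hDd, Finset.mem_inter, Finset.mem_sdiff, Finset.mem_sdiff, Finset.mem_sdiff,
      Finset.mem_sdiff] at hx
    exact ⟨hx.1.1.1, hx.2.1.1, hx.1.1.2, hx.1.2⟩
  have hE : (Y1 ∩ (B ∩ C)).card + ((Y1 \ B) ∪ (Y1 \ C)).card = Y1.card := by
    have h1 : (Y1 \ B) ∪ (Y1 \ C) = Y1 \ (B ∩ C) := by
      ext x
      simp only [Finset.mem_union, Finset.mem_sdiff, Finset.mem_inter]
      tauto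
    rw [h1]
    have h2 := Finset.card_sdiff_add_card_inter Y1 (B ∩ C)
    omega
  have hU := Finset.card_union_add_card_inter (Y1 \ B) (Y1 \ C)
  have hd1 : Disjoint Z0 (Y1 ∩ (B ∩ C)) :=
    hZ.mono_right (Finset.inter_subset_left.trans hY)
  have hd2 : Disjoint (Z0 ∪ Y1 ∩ (B ∩ C)) D := by
    rw [Finset.disjoint_left]
    intro x hx hxD
    have h3 := hDmem x hxD
    rw [Finset.mem_union, Finset.mem_inter] at hx
    rcases hx with hx | hx
    · exact h3.2.2.2 hx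
    · exact h3.2.2.1 (hY hx.1)
  have hsub : Z0 ∪ Y1 ∩ (B ∩ C) ∪ D ⊆ B ∩ C := by
    refine Finset.union_subset (Finset.union_subset ?_ Finset.inter_subset_right) ?_
    · exact Finset.subset_inter hBZ hCZ
    · intro x hx
      have h3 := hDmem x hx
      exact Finset.mem_inter.2 ⟨h3.1, h3.2.1⟩
  have h4 := (Finset.card_le_card hsub).trans hint
  rw [Finset.card_union_of_disjoint hd2, Finset.card_union_of_disjoint hd1, hZc] at h4
  rw [← hDd]
  omega

end Pool.Agent.BetaF
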