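import Mathlib
import Pool.Agent.BetaF.T1

set_option autoImplicit false

namespace Pool.Agent.BetaF

open Finset Pool.Agent.MP_1e96f1_co

variable {Ω : Type*} [Fintype Ω] [DecidableEq Ω]

theorem tits {Bs : Finset (Finset Ω)} {v k d n : ℕ} (hD : IsDesign Bs v k d) (hd : 0 < d)
    (hB : IsBeta Bs v d (n + 1)) (hn : 1 ≤ n) (hk : d + 2 * n + 1 ≤ k) : (n + 1) ^ 2 ≤ d := by
  obtain ⟨hdk, hkv⟩ := design_facts hD
  obtain ⟨B0, hB0, -⟩ := hD.inter_eq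
  have hB0c := hD.card_block B0 hB0
  obtain ⟨Y1, hY, hYc⟩ := Finset.exists_subset_card_eq (n := d + n + 1) (s := B0) (by omega)
  have hcomp : (B0ᶜ).card = v - k := by rw [Finset.card_compl, hD.card_points, hB0c]
  obtain ⟨Z0, hZs, hZc⟩ := Finset.exists_subset_card_eq (n := n) (s := B0ᶜ) (by omega)
  have hZ : Disjoint Z0 B0 := by
    rw [Finset.disjoint_left]
    intro z hz hz'
    exact Finset.mem_compl.mp (hZs hz) hz'
  obtain ⟨r, hr⟩ : ∃ r, r ∉ B0 ∪ Z0 := by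
    by_contra hcon
    push Not at hcon
    have h1 : (Finset.univ : Finset Ω) ⊆ B0 ∪ Z0 := fun z _ => hcon z
    have h2 := Finset.card_le_card h1
    have h3 := Finset.card_union_le B0 Z0
    rw [Finset.card_univ, hD.card_points] at h2
    omega
  rw [Finset.mem_union, not_or] at hr
  obtain ⟨hrB, hrZ⟩ := hr
  obtain ⟨p, hp⟩ : Y1.Nonempty := Finset.card_pos.mp (by omega)
  obtain ⟨B, hBs, hBne, hBZ, hBr, hBp, hBB, hBd, hBn⟩ := t_block hD hB hB0 hY hYc hZ hZc hp hrB hrZ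
  obtain ⟨q, hq⟩ : (Y1 ∩ B).Nonempty := Finset.card_pos.mp (by omega)
  rw [Finset.mem_inter] at hq
  obtain ⟨B', hBs', hBne', hBZ', hBr', hBq', hBB', hBd', hBn'⟩ :=
    t_block hD hB hB0 hY hYc hZ hZc hq.1 hrB hrZ
  have hne : B ≠ B' := fun h => hBq' (h ▸ hq.2)
  have h2 := t_two hD hY hYc hZ hZc hBs hBs' hne hBZ hBZ' hBn hBn'
  have hmC : ∀ {X : Finset Ω} {z : Ω}, z ∉ B0 → z ∉ Z0 → z ∈ X → z ∈ (X \ B0) \ Z0 := by
    intro X z h1 h2 h3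
    simp only [Finset.mem_sdiff]
    exact ⟨⟨h3, h1⟩, h2⟩
  have hrC : r ∈ ((B \ B0) \ Z0) ∩ ((B' \ B0) \ Z0) :=
    Finset.mem_inter.mpr ⟨hmC hrB hrZ hBr, hmC hrB hrZ hBr'⟩
  have hc1 : 1 ≤ (((B \ B0) \ Z0) ∩ ((B' \ B0) \ Z0)).card := Finset.card_pos.mpr ⟨r, hrC⟩
  have hA0 : (Y1 \ B) ∩ (Y1 \ B') = ∅ := Finset.card_eq_zero.mp (by omega)
  have hCc : ((B \ B0) \ Z0).card = k - d - n := by
    have e1 : B ∩ B0 = Y1 ∩ B := by
      ext z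
      simp only [Finset.mem_inter]
      constructor
      · rintro ⟨h1, h2⟩
        exact ⟨hBB (Finset.mem_inter.mpr ⟨h1, h2⟩), h1⟩
      · rintro ⟨h1, h2⟩
        exact ⟨h2, hY h1⟩
    have e2 := Finset.card_sdiff_add_card_inter B B0
    rw [e1, hBd, hD.card_block B hBs] at e2
    have e3 : Z0 ⊆ B \ B0 := by
      intro z hz
      exact Finset.mem_sdiff.mpr ⟨hBZ hz, Finset.disjoint_left.mp hZ hz⟩
    rw [Finset.card_sdiff_of_subset e3, hZc]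
    omega
  obtain ⟨r', hr'C, hr'r⟩ := Finset.exists_mem_ne (s := (B \ B0) \ Z0) (by omega) r
  have hr'C2 := hr'C
  simp only [Finset.mem_sdiff] at hr'C2
  obtain ⟨⟨hr'B, hr'B0⟩, hr'Z⟩ := hr'C2
  have hr'B' : r' ∉ B' := by
    intro hcon
    have h3 : ({r, r'} : Finset Ω) ⊆ ((B \ B0) \ Z0) ∩ ((B' \ B0) \ Z0) := by
      intro z hz
      rw [Finset.mem_insert, Finset.mem_singleton] at hz
      rcases hz with rfl | rfl
      · exact hrC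
      · exact Finset.mem_inter.mpr ⟨hr'C, hmC hr'B0 hr'Z hcon⟩
    have h4 := Finset.card_le_card h3
    rw [Finset.card_pair hr'r.symm] at h4
    omega
  have hex : ∀ q' ∈ Y1 \ B', ∃ E ∈ Bs, E ≠ B0 ∧ Z0 ⊆ E ∧ r' ∈ E ∧ q' ∉ E ∧ E ∩ B0 ⊆ Y1 ∧
      (Y1 ∩ E).card = d ∧ (Y1 \ E).card = n + 1 := fun q' hq' =>
    t_block hD hB hB0 hY hYc hZ hZc (Finset.mem_sdiff.mp hq').1 hr'B0 hr'Z
  choose! f hfs hfne hfZ hfr hfq hfB hfd hfn using hex
  have hfB' : ∀ q' ∈ Y1 \ B', f q' ≠ B' := fun q' hq' h => hr'B' (h ▸ hfr q' hq')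
  have hinj : ∀ q1 ∈ Y1 \ B', ∀ q2 ∈ Y1 \ B', q1 ≠ q2 → f q1 ≠ f q2 := by
    intro q1 h1 q2 h2 hne12 heq
    have h3 := t_two hD hY hYc hZ hZc (hfs q1 h1) hBs' (hfB' q1 h1) (hfZ q1 h1) hBZ' (hfn q1 h1) hBn'
    have h4 : ({q1, q2} : Finset Ω) ⊆ (Y1 \ f q1) ∩ (Y1 \ B') := by
      intro z hz
      rw [Finset.mem_insert, Finset.mem_singleton] at hz
      rcases hz with rfl | rfl
      · exact Finset.mem_inter.mpr ⟨Finset.mem_sdiff.mpr ⟨(Finset.mem_sdiff.mp h1).1, hfq _ h1⟩, h1⟩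
      · exact Finset.mem_inter.mpr ⟨Finset.mem_sdiff.mpr ⟨(Finset.mem_sdiff.mp h2).1,
          heq ▸ hfq _ h2⟩, h2⟩
    have h5 := Finset.card_le_card h4
    rw [Finset.card_pair hne12] at h5
    omega
  have hpair : ∀ {E E' : Finset Ω}, E ∈ Bs → E' ∈ Bs → E ≠ E' → Z0 ⊆ E → Z0 ⊆ E' →
      (Y1 \ E).card = n + 1 → (Y1 \ E').card = n + 1 → r' ∈ E → r' ∈ E' →
      Disjoint (Y1 \ E) (Y1 \ E') := by
    intro E E' h1 h2 h3 h4 h5 h6 h7 h8 h9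
    have h10 := t_two hD hY hYc hZ hZc h1 h2 h3 h4 h5 h6 h7
    have h11 : 1 ≤ (((E \ B0) \ Z0) ∩ ((E' \ B0) \ Z0)).card :=
      Finset.card_pos.mpr ⟨r', Finset.mem_inter.mpr ⟨hmC hr'B0 hr'Z h8, hmC hr'B0 hr'Z h9⟩⟩
    rw [Finset.disjoint_iff_inter_eq_empty]
    exact Finset.card_eq_zero.mp (by omega)
  have hU : ((Y1 \ B').biUnion fun q' => Y1 \ f q').card = (n + 1) * (n + 1) := by
    rw [Finset.card_biUnion]
    · rw [Finset.sum_congr rfl (fun q' hq' => hfn q' hq'), Finset.sum_const, hBn', smul_eq_mul]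
    · intro q1 h1 q2 h2 h12
      exact hpair (hfs q1 h1) (hfs q2 h2) (hinj q1 h1 q2 h2 h12) (hfZ q1 h1) (hfZ q2 h2)
        (hfn q1 h1) (hfn q2 h2) (hfr q1 h1) (hfr q2 h2)
  have hdis : Disjoint (Y1 \ B) ((Y1 \ B').biUnion fun q' => Y1 \ f q') := by
    rw [Finset.disjoint_biUnion_right]
    intro q' hq'
    refine hpair hBs (hfs q' hq') ?_ hBZ (hfZ q' hq') hBn (hfn q' hq') hr'B (hfr q' hq')
    intro heq
    have h3 : q' ∉ Y1 \ B := by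
      intro h4
      have : q' ∈ (Y1 \ B) ∩ (Y1 \ B') := Finset.mem_inter.mpr ⟨h4, hq'⟩
      rw [hA0] at this
      exact absurd this (Finset.notMem_empty _)
    have h4 : q' ∈ B := by
      by_contra h5
      exact h3 (Finset.mem_sdiff.mpr ⟨(Finset.mem_sdiff.mp hq').1, h5⟩)
    exact hfq q' hq' (heq ▸ h4)
  have hsub : (Y1 \ B) ∪ ((Y1 \ B').biUnion fun q' => Y1 \ f q') ⊆ Y1 := by
    apply Finset.union_subset Finset.sdiff_subset
    rw [Finset.biUnion_subset]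
    intro q' _
    exact Finset.sdiff_subset
  have h3 := Finset.card_le_card hsub
  rw [Finset.card_union_of_disjoint hdis, hU, hBn, hYc] at h3
  nlinarith

end Pool.Agent.BetaF
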