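import Mathlib

set_option autoImplicit false

namespace Pool.Agent.BetaF

open Finset

/-- the limit of the Lloyd polynomials (a Laguerre polynomial up to a factor):
`Lam a c s = ∑ⱼ (-1)ʲ C(s,j) cʲ / ((a+1)(a+2)…(a+j))` -/
noncomputable def Lam (a : ℕ) (c : ℝ) (s : ℕ) : ℝ :=
  ∑ j ∈ range (s + 1), (-1) ^ j * (s.choose j : ℝ) * c ^ j / ∏ r ∈ range j, ((a : ℝ) + 1 + r)

/-- the deformed sum; `Phi a s 0 0 0 c = Lam a c s` -/
noncomputable def Phi (a s : ℕ) (α β γ c : ℝ) : ℝ :=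
  ∑ j ∈ range (s + 1), (-1) ^ j * (s.choose j : ℝ) * c ^ j *
    ∏ r ∈ range j, ((1 - r * α) * (1 + (s + r) * β) / (((a : ℝ) + 1 + r) * (1 - (1 + r) * γ)))

/-- the coefficient `C(t+a, a+j) * t! / j!` -/
def fc (a t j : ℕ) : ℕ := (t + a).choose (a + j) * t.descFactorial (t - j)

end Pool.Agent.BetaF
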