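import Mathlib
import Pool.Agent.BetaF.Defs

set_option autoImplicit false

namespace Pool.Agent.BetaF

open Finset

/-- at the origin -/
theorem Phi_zero (a s : ℕ) (c : ℝ) : Phi a s 0 0 0 c = Lam a c s := by
  unfold Phi Lam
  refine Finset.sum_congr rfl fun j _ => ?_
  rw [div_eq_mul_inv, ← Finset.prod_inv_distrib]
  congr 1
  refine Finset.prod_congr rfl fun r _ => ?_
  rw [mul_zero, mul_zero, mul_zero, sub_zero, add_zero, mul_one, mul_one, one_div]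

/-- `(α, β, γ, c) ↦ Phi a s α β γ c` is continuous at `(0, 0, 0, c₀)`: a finite sum of finite products,
the denominators `(a+1+r) (1 - (1+r) γ)` do not vanish at `γ = 0`. -/
theorem Phi_cont (a s : ℕ) (c₀ : ℝ) :
    ContinuousAt (fun z : (ℝ × ℝ × ℝ) × ℝ => Phi a s z.1.1 z.1.2.1 z.1.2.2 z.2)
      (((0 : ℝ), (0 : ℝ), (0 : ℝ)), c₀) := by
  unfold Phi
  refine tendsto_finsetSum _ fun j _ => ?_
  refine Filter.Tendsto.mul ?_ ?_
  · refine Filter.Tendsto.mul tendsto_const_nhds ?_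
    exact (Continuous.pow continuous_snd j).continuousAt
  · refine tendsto_finsetProd _ fun r _ => ?_
    refine Filter.Tendsto.div ?_ ?_ ?_
    · have h : Continuous fun z : (ℝ × ℝ × ℝ) × ℝ => (1 - (r : ℝ) * z.1.1) * (1 + ((s : ℝ) + r) * z.1.2.1) := by
        fun_prop
      exact h.continuousAt
    · have h : Continuous fun z : (ℝ × ℝ × ℝ) × ℝ => ((a : ℝ) + 1 + r) * (1 - (1 + (r : ℝ)) * z.1.2.2) := by
        fun_prop
      exact h.continuousAt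
    · show ((a : ℝ) + 1 + r) * (1 - (1 + (r : ℝ)) * 0) ≠ 0
      rw [mul_zero, sub_zero, mul_one]
      positivity

/-- **Compactness.**  `IsCompact.eventually_forall_of_forall_eventually` for the compact set `Icc ε C`, the
point `x₀ = (0,0,0)` and `P x c := ∃ s, (s + 2) * x.2.2 < 1 ∧ Phi a s … c * Phi a (s+1) … c < 0`: for
`c₀ ∈ Icc ε C` take `s` from `hosc`; near `(x₀, c₀)` the product is `< 0` by `Phi_cont`, `Phi_zero`, and
`(s + 2) γ < 1`.  Then `Metric.eventually_nhds_iff` (sup metric of the product `ℝ × ℝ × ℝ`). -/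
theorem compact_sign (a : ℕ) {ε C : ℝ}
    (hosc : ∀ c ∈ Set.Icc ε C, ∃ s, Lam a c s * Lam a c (s + 1) < 0) :
    ∃ δ > 0, ∀ α β γ : ℝ, |α| < δ → |β| < δ → |γ| < δ → ∀ c ∈ Set.Icc ε C,
      ∃ s : ℕ, ((s : ℝ) + 2) * γ < 1 ∧ Phi a s α β γ c * Phi a (s + 1) α β γ c < 0 := by
  have hK : IsCompact (Set.Icc ε C) := isCompact_Icc
  have h := hK.eventually_forall_of_forall_eventually (x₀ := ((0 : ℝ), (0 : ℝ), (0 : ℝ)))
    (P := fun (x : ℝ × ℝ × ℝ) (c : ℝ) => ∃ s : ℕ, ((s : ℝ) + 2) * x.2.2 < 1 ∧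
      Phi a s x.1 x.2.1 x.2.2 c * Phi a (s + 1) x.1 x.2.1 x.2.2 c < 0) (by
    intro c₀ hc₀
    obtain ⟨s, hs⟩ := hosc c₀ hc₀
    have h1 : ContinuousAt (fun z : (ℝ × ℝ × ℝ) × ℝ => Phi a s z.1.1 z.1.2.1 z.1.2.2 z.2 *
        Phi a (s + 1) z.1.1 z.1.2.1 z.1.2.2 z.2) (((0 : ℝ), (0 : ℝ), (0 : ℝ)), c₀) :=
      (Phi_cont a s c₀).mul (Phi_cont a (s + 1) c₀)
    have h2 : ContinuousAt (fun z : (ℝ × ℝ × ℝ) × ℝ => ((s : ℝ) + 2) * z.1.2.2)
        (((0 : ℝ), (0 : ℝ), (0 : ℝ)), c₀) := by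
      have h3 : Continuous fun z : (ℝ × ℝ × ℝ) × ℝ => ((s : ℝ) + 2) * z.1.2.2 := by fun_prop
      exact h3.continuousAt
    have e1 : ∀ᶠ z : (ℝ × ℝ × ℝ) × ℝ in nhds (((0 : ℝ), (0 : ℝ), (0 : ℝ)), c₀),
        ((s : ℝ) + 2) * z.1.2.2 < 1 := by
      refine h2.eventually_lt continuousAt_const ?_
      show ((s : ℝ) + 2) * 0 < 1
      rw [mul_zero]
      exact one_pos
    have e2 : ∀ᶠ z : (ℝ × ℝ × ℝ) × ℝ in nhds (((0 : ℝ), (0 : ℝ), (0 : ℝ)), c₀),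
        Phi a s z.1.1 z.1.2.1 z.1.2.2 z.2 * Phi a (s + 1) z.1.1 z.1.2.1 z.1.2.2 z.2 < 0 := by
      refine h1.eventually_lt continuousAt_const ?_
      show Phi a s 0 0 0 c₀ * Phi a (s + 1) 0 0 0 c₀ < 0
      rw [Phi_zero, Phi_zero]
      exact hs
    filter_upwards [e1, e2] with z hz1 hz2
    exact ⟨s, hz1, hz2⟩)
  rw [Metric.eventually_nhds_iff] at h
  obtain ⟨δ, hδ, h⟩ := h
  refine ⟨δ, hδ, fun α β γ hα hβ hγ c hc => ?_⟩
  refine h (y := (α, β, γ)) ?_ c hc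
  rw [Prod.dist_eq, Prod.dist_eq, max_lt_iff, max_lt_iff]
  refine ⟨?_, ?_, ?_⟩
  · rw [Real.dist_eq, sub_zero]
    exact hα
  · rw [Real.dist_eq, sub_zero]
    exact hβ
  · rw [Real.dist_eq, sub_zero]
    exact hγ

end Pool.Agent.BetaF
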