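import Mathlib
import Pool.Agent.BetaF.Defs

set_option autoImplicit false

namespace Pool.Agent.BetaF

open Finset

/-- `fc a t t = 1`, `fc a t 0 = C(t+a, a) t!` -/
theorem fc_top (a t : ℕ) : fc a t t = 1 := by
  unfold fc
  rw [Nat.sub_self, Nat.descFactorial_zero, add_comm a t, Nat.choose_self, mul_one]

theorem fc_zero (a t : ℕ) : fc a t 0 = (t + a).choose a * t.factorial := by
  unfold fc
  rw [Nat.sub_zero, add_zero, Nat.descFactorial_self]

/-- for `j ≤ t`: `fc a t j * j! = C(t+a, a+j) * t!` -/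
theorem fc_mul (a t j : ℕ) (hj : j ≤ t) :
    fc a t j * j.factorial = (t + a).choose (a + j) * t.factorial := by
  unfold fc
  have h := Nat.factorial_mul_descFactorial (Nat.sub_le t j)
  rw [Nat.sub_sub_self hj] at h
  rw [mul_assoc, mul_comm (t.descFactorial (t - j)), h]

/-- `p ∤ C(t+a, a)` if `p^m ∣ t` and `a < p^m`.  (E.g. Lucas: `Choose.choose_modEq_choose_mod_mul_choose_div_nat`
is for one digit; or directly: `C(t+a,a) = ∏_{i=1}^{a} (t+i)/i` and for `1 ≤ i ≤ a < p^m` the numbers `t + i`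
and `i` have the same `p`-adic valuation since `p^m ∣ t` (`padicValNat`); or by Vandermonde mod `p`, or
`Nat.Prime.multiplicity_choose`/`padicValNat_choose` (no carries).) -/
theorem not_dvd_choose {p a t m : ℕ} (hp : p.Prime) (hpt : p ^ m ∣ t) (ha : a < p ^ m) :
    ¬ p ∣ (t + a).choose a := by
  induction m generalizing a t with
  | zero =>
    have h0 : a = 0 := by
      rw [pow_zero] at ha
      omega
    subst h0
    rw [Nat.choose_zero_right]
    exact hp.one_lt.ne' ∘ Nat.dvd_one.mp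
  | succ m ih =>
    have hpp := hp.pos
    obtain ⟨s, rfl⟩ := hpt
    have hfact : Fact p.Prime := ⟨hp⟩
    have e1 : p ^ (m + 1) * s = p * (p ^ m * s) := by
      rw [pow_succ]
      ring
    have e2 : (p * (p ^ m * s) + a) % p = a % p := Nat.mul_add_mod p _ a
    have e3 : (p * (p ^ m * s) + a) / p = p ^ m * s + a / p := Nat.mul_add_div hpp _ a
    have h1 := Choose.choose_modEq_choose_mod_mul_choose_div_nat (n := p * (p ^ m * s) + a)
      (k := a) (p := p)
    rw [e2, e3, Nat.choose_self, one_mul] at h1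
    have h2 : a / p < p ^ m := by
      rw [Nat.div_lt_iff_lt_mul hpp, ← pow_succ]
      exact ha
    have h3 := ih (Dvd.intro s rfl) h2
    rw [e1]
    intro h4
    apply h3
    have h5 : (p * (p ^ m * s) + a).choose a ≡ 0 [MOD p] := (Nat.modEq_zero_iff_dvd).mpr h4
    exact (Nat.modEq_zero_iff_dvd).mp (h1.symm.trans h5)

theorem p1_step {p l S d i : ℕ} (hp : 2 ≤ p) (h : i * (p ^ l - 1) ≤ S * (p ^ l * (p - 1)))
    (hd : i ≤ p ^ (l + 1) * d) :
    i * (p ^ (l + 1) - 1) ≤ (S + d) * (p ^ (l + 1) * (p - 1)) := by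
  obtain ⟨q, rfl⟩ : ∃ q, p = q + 1 := ⟨p - 1, by omega⟩
  have hP : 1 ≤ (q + 1) ^ l := Nat.one_le_pow _ _ (by omega)
  rw [pow_succ] at hd ⊢
  generalize (q + 1) ^ l = P at *
  obtain ⟨r, rfl⟩ : ∃ r, P = r + 1 := ⟨P - 1, by omega⟩
  have e1 : (r + 1) * (q + 1) - 1 = r * (q + 1) + q := by
    have : (r + 1) * (q + 1) = r * (q + 1) + q + 1 := by ring
    omega
  rw [e1]
  simp only [Nat.add_sub_cancel] at h ⊢
  have h1 := Nat.mul_le_mul_right (q + 1) h
  have h2 := Nat.mul_le_mul_right q hd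
  nlinarith

/-- For `p^m ∣ t` and `i ≤ t`: the `p`-adic valuation `e` of `t (t-1) … (t-i+1)` satisfies
`i (p^m - 1) ≤ e p^m (p-1)`.  Legendre: `e = v(t!) - v((t-i)!) = ∑_l (⌊t/p^l⌋ - ⌊(t-i)/p^l⌋) ≥
∑_{l=1}^{m} (t/p^l - (t-i)/p^l) ≥ ∑_{l=1}^{m} i/p^l = i (p^m - 1) / (p^m (p - 1))`, where we used that
`t/p^l` is an integer for `l ≤ m`.  (In integers: `p^l * (t/p^l - (t-i)/p^l) ≥ i`.)  Alternatively by
induction on `m`: among `t, …, t-i+1` at least `⌈i/p^l⌉` are multiples of `p^l`. -/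
theorem val_desc {p m t i : ℕ} (hp : p.Prime) (ht : 0 < t) (hpt : p ^ m ∣ t) (hi : i ≤ t) :
    i * (p ^ m - 1) ≤ padicValNat p (t.descFactorial i) * (p ^ m * (p - 1)) := by
  have hfact : Fact p.Prime := ⟨hp⟩
  have hml : m ≤ Nat.log p t :=
    (Nat.le_log_iff_pow_le hp.one_lt ht.ne').mpr (Nat.le_of_dvd ht hpt)
  set b : ℕ := Nat.log p t + 1 with hb
  -- the valuation as a sum
  have hval : ∑ l ∈ Ico 1 b, (t / p ^ l - (t - i) / p ^ l) = padicValNat p (t.descFactorial i) := by
    have h1 : padicValNat p t.factorial = ∑ l ∈ Ico 1 b, t / p ^ l :=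
      padicValNat_factorial (Nat.lt_succ_self _)
    have h2 : padicValNat p (t - i).factorial = ∑ l ∈ Ico 1 b, (t - i) / p ^ l := by
      apply padicValNat_factorial
      exact lt_of_le_of_lt (Nat.log_mono_right (Nat.sub_le t i)) (Nat.lt_succ_self _)
    have h3 : padicValNat p t.factorial =
        padicValNat p (t - i).factorial + padicValNat p (t.descFactorial i) := by
      rw [← Nat.factorial_mul_descFactorial hi,
        padicValNat.mul (Nat.factorial_ne_zero _)]
      intro h0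
      rw [Nat.descFactorial_eq_zero_iff_lt] at h0
      omega
    have h4 : ∑ l ∈ Ico 1 b, t / p ^ l = ∑ l ∈ Ico 1 b, (t - i) / p ^ l +
        ∑ l ∈ Ico 1 b, (t / p ^ l - (t - i) / p ^ l) := by
      rw [← Finset.sum_add_distrib]
      refine Finset.sum_congr rfl fun l _ => ?_
      have : (t - i) / p ^ l ≤ t / p ^ l := Nat.div_le_div_right (Nat.sub_le t i)
      omega
    omega
  have hle : ∑ l ∈ Ico 1 (m + 1), (t / p ^ l - (t - i) / p ^ l) ≤
      padicValNat p (t.descFactorial i) := by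
    rw [← hval]
    apply Finset.sum_le_sum_of_subset
    intro l hl
    rw [mem_Ico] at hl ⊢
    omega
  have key : ∀ n, n ≤ m → i * (p ^ n - 1) ≤
      (∑ l ∈ Ico 1 (n + 1), (t / p ^ l - (t - i) / p ^ l)) * (p ^ n * (p - 1)) := by
    intro n
    induction n with
    | zero => intro _; simp
    | succ n ih =>
      intro hn
      rw [Finset.sum_Ico_succ_top (by omega : 1 ≤ n + 1)]
      refine p1_step hp.two_le (ih (by omega)) ?_
      obtain ⟨s, hs⟩ := (pow_dvd_pow p hn).trans hpt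
      have hpos : 0 < p ^ (n + 1) := pow_pos hp.pos _
      have h1 : t / p ^ (n + 1) = s := by
        rw [hs, Nat.mul_div_cancel_left _ hpos]
      have h2 : p ^ (n + 1) * ((t - i) / p ^ (n + 1)) ≤ t - i := Nat.mul_div_le _ _
      rw [h1, Nat.mul_sub, ← hs]
      omega
  exact (key m le_rfl).trans (Nat.mul_le_mul_right _ hle)

end Pool.Agent.BetaF
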