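import Mathlib
import Pool.Agent.BetaF.P1

set_option autoImplicit false

namespace Pool.Agent.BetaF

open Finset Polynomial

/-- the integral polynomial `∑ⱼ (-1)ʲ fc(a,t,j) Xʲ` -/
noncomputable def fpol (a t : ℕ) : ℤ[X] :=
  ∑ j ∈ range (t + 1), C ((-1) ^ j * (fc a t j : ℤ)) * X ^ j

theorem p3_fact (a t : ℕ) : (a.factorial : ℝ) * ∏ r ∈ range t, ((a : ℝ) + 1 + r) =
    ((a + t).factorial : ℝ) := by
  induction t with
  | zero => simp
  | succ t ih =>
    rw [prod_range_succ, ← mul_assoc, ih, ← add_assoc, Nat.factorial_succ]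
    push_cast
    ring

theorem p3_fc (a t j : ℕ) (hj : j ≤ t) :
    t.choose j * (a + t).factorial = fc a t j * (a + j).factorial := by
  have h1 := Nat.choose_mul_factorial_mul_factorial hj
  have h2 := Nat.choose_mul_factorial_mul_factorial (show a + j ≤ t + a by omega)
  have h3 := Nat.factorial_mul_descFactorial (show t - j ≤ t by omega)
  rw [show t + a - (a + j) = t - j by omega] at h2
  rw [show t - (t - j) = j by omega] at h3
  have h4 : t.descFactorial (t - j) = t.choose j * (t - j).factorial := by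
    apply Nat.eq_of_mul_eq_mul_left (Nat.factorial_pos j)
    rw [h3, ← h1]
    ring
  unfold fc
  rw [h4, add_comm a t, ← h2]
  ring

/-- `Lam a c t * ((a+1)…(a+t)) = ∑ⱼ (-1)ʲ fc(a,t,j) cʲ`: for `j ≤ t`,
`C(t,j) * ((a+1)…(a+t)) / ((a+1)…(a+j)) = C(t,j) (a+t)!/(a+j)! = C(t+a,a+j) t!/j!`. -/
theorem Lam_eq_aeval (a : ℕ) (c : ℝ) (t : ℕ) :
    Lam a c t * ∏ r ∈ range t, ((a : ℝ) + 1 + r) = aeval c (fpol a t) := by
  unfold Lam fpol
  rw [sum_mul, map_sum]
  refine sum_congr rfl fun j hj => ?_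
  have hjt : j ≤ t := Nat.lt_succ_iff.1 (mem_range.1 hj)
  rw [map_mul, map_pow, aeval_X, aeval_C]
  have ha : (a.factorial : ℝ) ≠ 0 := by exact_mod_cast Nat.factorial_ne_zero a
  have hpj : ∏ r ∈ range j, ((a : ℝ) + 1 + r) ≠ 0 := by
    refine prod_ne_zero_iff.2 fun r _ => ?_
    positivity
  have h1 := p3_fact a t
  have h2 := p3_fact a j
  have h3 : (t.choose j : ℝ) * ((a + t).factorial : ℝ) =
      (fc a t j : ℝ) * ((a + j).factorial : ℝ) := by
    exact_mod_cast p3_fc a t j hjt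
  rw [← h1, ← h2] at h3
  have h4 : (t.choose j : ℝ) * ∏ r ∈ range t, ((a : ℝ) + 1 + r) =
      (fc a t j : ℝ) * ∏ r ∈ range j, ((a : ℝ) + 1 + r) := by
    apply mul_left_cancel₀ ha
    linear_combination h3
  have h5 : (algebraMap ℤ ℝ) ((-1) ^ j * (fc a t j : ℤ)) = (-1) ^ j * (fc a t j : ℝ) := by
    simp
  rw [h5, div_mul_eq_mul_div, div_eq_iff hpj]
  linear_combination ((-1) ^ j * c ^ j) * h4

/-- The degree is `t` and the leading coefficient `(-1)^t` (`fc_top`), so a zero is an algebraic integer. -/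
theorem isIntegral_of_zero (a : ℕ) (c : ℝ) {t : ℕ} (h : aeval c (fpol a t) = 0) :
    IsIntegral ℤ c := by
  have hdeg : (fpol a t).natDegree ≤ t := by
    unfold fpol
    refine natDegree_sum_le_of_forall_le _ _ fun j hj => ?_
    have hjt : j ≤ t := Nat.lt_succ_iff.1 (mem_range.1 hj)
    exact (natDegree_C_mul_X_pow_le _ _).trans hjt
  have hcoeff : (fpol a t).coeff t = (-1) ^ t := by
    unfold fpol
    rw [finsetSum_coeff, sum_eq_single t]
    · rw [coeff_C_mul_X_pow, if_pos rfl, fc_top]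
      simp
    · intro j _ hjt
      rw [coeff_C_mul_X_pow, if_neg (Ne.symm hjt)]
    · intro ht
      exact absurd (mem_range.2 (Nat.lt_succ_self t)) ht
  have hmon : (C ((-1) ^ t) * fpol a t).Monic := by
    apply monic_of_natDegree_le_of_coeff_eq_one t
    · exact (natDegree_C_mul_le _ _).trans hdeg
    · rw [coeff_C_mul, hcoeff, ← pow_add, ← two_mul, pow_mul]
      simp
  refine ⟨_, hmon, ?_⟩
  rw [← aeval_def, map_mul, h, mul_zero]

/-- If infinitely many `t` then the prime powers dividing them are unbounded: a number `t > 0` all of whose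
prime power divisors are `≤ M` is at most `M ^ (M + 1)` (`Nat.factorization_prod_pow_eq_self`: a product over
at most `M + 1` primes `≤ M` of numbers `≤ M`). -/
theorem exists_prime_pow {S : Set ℕ} (hS : S.Infinite) (M : ℕ) :
    ∃ t ∈ S, 0 < t ∧ ∃ p m : ℕ, p.Prime ∧ p ^ m ∣ t ∧ M < p ^ m := by
  obtain ⟨t, htS, ht⟩ := hS.exists_gt (M.factorial)
  have ht0 : 0 < t := lt_of_le_of_lt (Nat.zero_le _) ht
  refine ⟨t, htS, ht0, ?_⟩
  by_contra hcon
  push Not at hcon
  have hdvd : t ∣ M.factorial := by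
    rw [Nat.dvd_iff_prime_pow_dvd_dvd]
    intro p k hp hk
    exact Nat.dvd_factorial (pow_pos hp.pos k) (hcon p k hp hk)
  exact absurd (Nat.le_of_dvd (Nat.factorial_pos M) hdvd) (not_le.2 ht)

end Pool.Agent.BetaF
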