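import Mathlib
import Pool.Agent.BetaF.P1

set_option autoImplicit false

namespace Pool.Agent.BetaF

open Finset

/-- The norm of `PadicAlgCl p` extends the one of `ℚ_[p]` (`PadicAlgCl.spectralNorm_extends` or
`PadicAlgCl.norm_extends`, `padicNormE.…`): `‖(N : PadicAlgCl p)‖ = p ^ (-v_p(N))` for a natural number
`N ≠ 0`. -/
theorem norm_nat (p : ℕ) [Fact p.Prime] {N : ℕ} (hN : N ≠ 0) :
    ‖(N : PadicAlgCl p)‖ = ((p : ℝ)⁻¹) ^ padicValNat p N := by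
  rw [← map_natCast (algebraMap ℚ_[p] (PadicAlgCl p)) N, PadicAlgCl.norm_extends,
    Padic.norm_eq_zpow_neg_valuation (by exact_mod_cast hN), Padic.valuation_natCast, zpow_neg,
    zpow_natCast, inv_pow]

theorem norm_nat_le_one (p : ℕ) [Fact p.Prime] (N : ℕ) : ‖(N : PadicAlgCl p)‖ ≤ 1 := by
  rcases eq_or_ne N 0 with rfl | hN
  · simp
  · rw [norm_nat p hN]
    have hp : (1 : ℝ) ≤ p := by exact_mod_cast (Fact.out : p.Prime).one_lt.le
    exact pow_le_one₀ (inv_nonneg.2 (by linarith)) (inv_le_one_of_one_le₀ hp)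

/-- same for integers -/
theorem norm_int (p : ℕ) [Fact p.Prime] {N : ℤ} (hN : N ≠ 0) :
    ‖(N : PadicAlgCl p)‖ = ((p : ℝ)⁻¹) ^ padicValInt p N := by
  rw [← map_intCast (algebraMap ℚ_[p] (PadicAlgCl p)) N, PadicAlgCl.norm_extends,
    Padic.norm_eq_zpow_neg_valuation (by exact_mod_cast hN), Padic.valuation_intCast, zpow_neg,
    zpow_natCast, inv_pow]

/-- **Lower bound for the roots.**  Write `b j = fc a t j`.  If `‖ρ‖ ^ j < ‖(j! : PadicAlgCl p)‖` for all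
`1 ≤ j ≤ t`, then `‖b j * ρ ^ j‖ < ‖b j‖ * ‖j!‖ = ‖C(t+a,a+j)‖ * ‖t!‖ ≤ ‖t!‖` (`fc_mul`,
`b j ≠ 0`), while `‖b 0‖ = ‖C(t+a,a)‖ * ‖t!‖ = ‖t!‖` (`fc_zero`, `not_dvd_choose`); so by the
ultrametric inequality the sum cannot vanish (`b 0 = - ∑_{j ≥ 1}`, and the norm of the sum on the right is
`< ‖t!‖`; the norm of `PadicAlgCl p` is nonarchimedean: `PadicAlgCl.isNonarchimedean`, or the instance
`IsUltrametricDist`, `IsUltrametricDist.norm_sum_le…`).  So `‖j!‖ ≤ ‖ρ‖ ^ j` for some `1 ≤ j ≤ t`.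
Since `(p-1) v(j!) ≤ j - 1` (`sub_one_mul_padicValNat_factorial`: `(p-1) v(j!) = j - digit sum`, and
the digit sum of `j ≥ 1` is at least `1`; or `Nat.Prime.…`), we get
`‖ρ‖ ^ (j (p-1)) ≥ ‖j!‖ ^ (p-1) = p^{-(p-1) v(j!)} ≥ p^{-(j-1)} > p^{-j}`, so `‖ρ‖ ^ (p-1) > p⁻¹`
(otherwise take `j`-th powers). -/
theorem root_lower {p : ℕ} [Fact p.Prime] {a t m : ℕ} (ht : 0 < t) (hpt : p ^ m ∣ t)
    (ha : a < p ^ m) (ρ : PadicAlgCl p)
    (h : ∑ j ∈ range (t + 1), (-1) ^ j * (fc a t j : PadicAlgCl p) * ρ ^ j = 0) :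
    (p : ℝ)⁻¹ < ‖ρ‖ ^ (p - 1) := by
  have hp : p.Prime := Fact.out
  have hp1 : (1 : ℝ) < p := by exact_mod_cast hp.one_lt
  have hinv0 : (0 : ℝ) < (p : ℝ)⁻¹ := inv_pos.2 (by linarith)
  have hinv1 : (p : ℝ)⁻¹ < 1 := inv_lt_one_of_one_lt₀ hp1
  rw [Finset.sum_range_succ'] at h
  have h0 : (-1) ^ 0 * (fc a t 0 : PadicAlgCl p) * ρ ^ 0 =
      -∑ j ∈ range t, (-1) ^ (j + 1) * (fc a t (j + 1) : PadicAlgCl p) * ρ ^ (j + 1) :=
    eq_neg_of_add_eq_zero_right h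
  obtain ⟨i, hi, hle⟩ := IsUltrametricDist.exists_norm_finsetSum_le_of_nonempty
    (t := range t) (Finset.nonempty_range_iff.2 ht.ne')
    (fun j => (-1) ^ (j + 1) * (fc a t (j + 1) : PadicAlgCl p) * ρ ^ (j + 1))
  rw [Finset.mem_range] at hi
  have hnorm : ‖(-1) ^ 0 * (fc a t 0 : PadicAlgCl p) * ρ ^ 0‖ = ‖(t.factorial : PadicAlgCl p)‖ := by
    rw [pow_zero, pow_zero, one_mul, mul_one, fc_zero, Nat.cast_mul, norm_mul]
    have h1 : ‖(((t + a).choose a : ℕ) : PadicAlgCl p)‖ = 1 := by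
      rw [norm_nat p (Nat.choose_pos (Nat.le_add_left a t)).ne',
        padicValNat.eq_zero_of_not_dvd (not_dvd_choose hp hpt ha), pow_zero]
    rw [h1, one_mul]
  have hb : ‖(fc a t (i + 1) : PadicAlgCl p)‖ * ‖((i + 1).factorial : PadicAlgCl p)‖ ≤
      ‖(t.factorial : PadicAlgCl p)‖ := by
    rw [← norm_mul, ← Nat.cast_mul, fc_mul a t (i + 1) hi, Nat.cast_mul, norm_mul]
    calc _ ≤ 1 * ‖(t.factorial : PadicAlgCl p)‖ :=
          mul_le_mul_of_nonneg_right (norm_nat_le_one p _) (norm_nonneg _)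
      _ = _ := one_mul _
  have ht0 : 0 < ‖(t.factorial : PadicAlgCl p)‖ := by
    rw [norm_nat p (Nat.factorial_ne_zero t)]
    exact pow_pos hinv0 _
  have hkey : ‖((i + 1).factorial : PadicAlgCl p)‖ ≤ ‖ρ‖ ^ (i + 1) := by
    have h1 : ‖(t.factorial : PadicAlgCl p)‖ ≤ ‖(fc a t (i + 1) : PadicAlgCl p)‖ * ‖ρ‖ ^ (i + 1) := by
      have h2 : ‖(-1) ^ 0 * (fc a t 0 : PadicAlgCl p) * ρ ^ 0‖ ≤
          ‖(-1) ^ (i + 1) * (fc a t (i + 1) : PadicAlgCl p) * ρ ^ (i + 1)‖ := by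
        rw [h0, norm_neg]
        exact hle
      rw [hnorm, norm_mul, norm_mul, norm_pow, norm_neg, norm_one, one_pow, one_mul, norm_pow] at h2
      exact h2
    have h3 : ‖(t.factorial : PadicAlgCl p)‖ * ‖((i + 1).factorial : PadicAlgCl p)‖ ≤
        ‖(t.factorial : PadicAlgCl p)‖ * ‖ρ‖ ^ (i + 1) := by
      calc ‖(t.factorial : PadicAlgCl p)‖ * ‖((i + 1).factorial : PadicAlgCl p)‖
          ≤ (‖(fc a t (i + 1) : PadicAlgCl p)‖ * ‖ρ‖ ^ (i + 1)) *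
            ‖((i + 1).factorial : PadicAlgCl p)‖ :=
            mul_le_mul_of_nonneg_right h1 (norm_nonneg _)
        _ = (‖(fc a t (i + 1) : PadicAlgCl p)‖ * ‖((i + 1).factorial : PadicAlgCl p)‖) *
            ‖ρ‖ ^ (i + 1) := by ring
        _ ≤ _ := mul_le_mul_of_nonneg_right hb (pow_nonneg (norm_nonneg _) _)
    exact le_of_mul_le_mul_left h3 ht0
  by_contra hcon
  rw [not_lt] at hcon
  have hv := sub_one_mul_padicValNat_factorial_lt_of_ne_zero p (n := i + 1) (Nat.succ_ne_zero i)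
  have h4 : ‖((i + 1).factorial : PadicAlgCl p)‖ ^ (p - 1) ≤ ((p : ℝ)⁻¹) ^ (i + 1) := by
    calc ‖((i + 1).factorial : PadicAlgCl p)‖ ^ (p - 1) ≤ (‖ρ‖ ^ (i + 1)) ^ (p - 1) :=
          pow_le_pow_left₀ (norm_nonneg _) hkey _
      _ = (‖ρ‖ ^ (p - 1)) ^ (i + 1) := by rw [← pow_mul, ← pow_mul, mul_comm]
      _ ≤ _ := pow_le_pow_left₀ (pow_nonneg (norm_nonneg _) _) hcon _
  rw [norm_nat p (Nat.factorial_ne_zero _), ← pow_mul, mul_comm] at h4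
  have h5 := (pow_le_pow_iff_right_of_lt_one₀ hinv0 hinv1).1 h4
  exact absurd hv (not_lt.2 h5)

end Pool.Agent.BetaF
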