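import Mathlib
import Pool.Agent.BetaF.P2

set_option autoImplicit false

namespace Pool.Agent.BetaF

open Finset

/-- **Upper bound for the roots.**  `ρ ≠ 0` (by `root_lower`, or since the constant term is not `0`).
`fc a t t = 1`, so `ρ ^ t = ± ∑_{j < t} ± b j * ρ ^ j`, and by the ultrametric inequality there is `j < t`
with `‖ρ‖ ^ t ≤ ‖b j‖ * ‖ρ‖ ^ j`; with `i = t - j ≥ 1`: `‖ρ‖ ^ i ≤ ‖b j‖ ≤ ‖descFactorial t i‖`
(definition of `fc`, `norm_nat_le_one`).  By `norm_nat`, `‖descFactorial t i‖ = p^{-e}` with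
`i (p^m - 1) ≤ e p^m (p-1)` (`val_desc`).  So `(‖ρ‖ ^ (p^m (p-1))) ^ i ≤ p^{-e p^m (p-1)} ≤
(p^{-(p^m-1)}) ^ i`; take `i`-th roots (`pow_le_pow_left₀`/`le_of_pow_le_pow_left₀`/`pow_le_pow_iff_left₀`). -/
theorem root_upper {p : ℕ} [Fact p.Prime] {a t m : ℕ} (ht : 0 < t) (hpt : p ^ m ∣ t)
    (ha : a < p ^ m) (ρ : PadicAlgCl p)
    (h : ∑ j ∈ range (t + 1), (-1) ^ j * (fc a t j : PadicAlgCl p) * ρ ^ j = 0) :
    ‖ρ‖ ^ (p ^ m * (p - 1)) ≤ ((p : ℝ)⁻¹) ^ (p ^ m - 1) := by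
  have hp := (Fact.out : p.Prime)
  have hp1 : 1 < p := hp.one_lt
  have hp0 : (0:ℝ) < (p:ℝ)⁻¹ := by positivity
  have hple : ((p:ℝ)⁻¹) ≤ 1 := inv_le_one_of_one_le₀ (by exact_mod_cast hp1.le)
  have hexp : 0 < p ^ m * (p - 1) := Nat.mul_pos (pow_pos hp.pos _) (by omega)
  by_cases hρ : ρ = 0
  · rw [hρ, norm_zero, zero_pow hexp.ne']
    positivity
  have hρn : 0 < ‖ρ‖ := norm_pos_iff.mpr hρ
  -- there is `j < t` with `‖ρ‖ ^ t ≤ ‖b j‖ * ‖ρ‖ ^ j`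
  obtain ⟨j, hjt, hj⟩ : ∃ j < t, ‖ρ‖ ^ t ≤ ‖(fc a t j : PadicAlgCl p)‖ * ‖ρ‖ ^ j := by
    rw [sum_range_succ] at h
    have htop : fc a t t = 1 := fc_top a t
    rw [htop] at h
    have h1 : (-1) ^ t * ρ ^ t =
        - ∑ j ∈ range t, (-1) ^ j * (fc a t j : PadicAlgCl p) * ρ ^ j := by
      have h2 : (-1) ^ t * ((1:ℕ) : PadicAlgCl p) * ρ ^ t = (-1) ^ t * ρ ^ t := by
        rw [Nat.cast_one, mul_one]
      rw [h2] at h
      exact (eq_neg_of_add_eq_zero_right h)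
    have h3 : ‖ρ‖ ^ t = ‖∑ j ∈ range t, (-1) ^ j * (fc a t j : PadicAlgCl p) * ρ ^ j‖ := by
      have h4 : ‖(-1 : PadicAlgCl p) ^ t * ρ ^ t‖ = ‖ρ‖ ^ t := by
        rw [norm_mul, norm_pow, norm_neg, norm_one, one_pow, one_mul, norm_pow]
      rw [← h4, h1, norm_neg]
    obtain ⟨j, hjm, hjle⟩ := IsUltrametricDist.exists_norm_finsetSum_le_of_nonempty
      (t := range t) ⟨0, mem_range.mpr ht⟩
      (fun j => (-1) ^ j * (fc a t j : PadicAlgCl p) * ρ ^ j)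
    refine ⟨j, mem_range.mp hjm, ?_⟩
    rw [h3]
    refine hjle.trans (le_of_eq ?_)
    rw [norm_mul, norm_mul, norm_pow, norm_neg, norm_one, one_pow, one_mul, norm_pow]
  set i := t - j with hi
  have hi1 : 1 ≤ i := by omega
  have hit : i ≤ t := by omega
  have htij : t = i + j := by omega
  have hb : ‖ρ‖ ^ i ≤ ‖(fc a t j : PadicAlgCl p)‖ := by
    have h1 : ‖ρ‖ ^ i * ‖ρ‖ ^ j ≤ ‖(fc a t j : PadicAlgCl p)‖ * ‖ρ‖ ^ j := by
      rw [← pow_add, ← htij]; exact hj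
    exact le_of_mul_le_mul_right h1 (pow_pos hρn j)
  have hdf : t.descFactorial i ≠ 0 := by
    rw [Ne, Nat.descFactorial_eq_zero_iff_lt]; omega
  have hb2 : ‖ρ‖ ^ i ≤ ((p:ℝ)⁻¹) ^ padicValNat p (t.descFactorial i) := by
    rw [← norm_nat p hdf]
    refine hb.trans ?_
    unfold fc
    rw [Nat.cast_mul, norm_mul]
    calc _ ≤ 1 * ‖((t.descFactorial (t - j) : ℕ) : PadicAlgCl p)‖ :=
          mul_le_mul_of_nonneg_right (norm_nat_le_one p _) (norm_nonneg _)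
      _ = _ := by rw [one_mul, ← hi]
  have hv := val_desc hp ht hpt hit
  have hfin : (‖ρ‖ ^ (p ^ m * (p - 1))) ^ i ≤ (((p : ℝ)⁻¹) ^ (p ^ m - 1)) ^ i := by
    calc (‖ρ‖ ^ (p ^ m * (p - 1))) ^ i = (‖ρ‖ ^ i) ^ (p ^ m * (p - 1)) := by
          rw [← pow_mul, ← pow_mul, Nat.mul_comm]
      _ ≤ (((p:ℝ)⁻¹) ^ padicValNat p (t.descFactorial i)) ^ (p ^ m * (p - 1)) :=
          pow_le_pow_left₀ (by positivity) hb2 _
      _ = ((p:ℝ)⁻¹) ^ (padicValNat p (t.descFactorial i) * (p ^ m * (p - 1))) := by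
          rw [← pow_mul]
      _ ≤ ((p:ℝ)⁻¹) ^ (i * (p ^ m - 1)) := pow_le_pow_of_le_one hp0.le hple hv
      _ = (((p : ℝ)⁻¹) ^ (p ^ m - 1)) ^ i := by rw [← pow_mul, Nat.mul_comm]
  exact le_of_pow_le_pow_left₀ (by omega) (by positivity) hfin

end Pool.Agent.BetaF
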