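import Mathlib
import Pool.Agent.BetaF.P3
import Pool.Agent.BetaF.P4

set_option autoImplicit false

namespace Pool.Agent.BetaF

open Finset Polynomial

theorem p5_lower {b : ℝ} (hb : 0 < b) (n : ℕ) (s : Multiset ℝ) (h0 : ∀ x ∈ s, 0 ≤ x)
    (h : ∀ x ∈ s, b < x ^ n) : b ^ Multiset.card s ≤ s.prod ^ n ∧
      (s ≠ 0 → b ^ Multiset.card s < s.prod ^ n) := by
  induction s using Multiset.induction with
  | empty => simp
  | cons a s ih =>
    obtain ⟨ih1, -⟩ := ih (fun x hx => h0 x (Multiset.mem_cons_of_mem hx))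
      (fun x hx => h x (Multiset.mem_cons_of_mem hx))
    have ha := h a (Multiset.mem_cons_self a s)
    have hlt : b ^ Multiset.card (a ::ₘ s) < (a ::ₘ s).prod ^ n := by
      rw [Multiset.card_cons, Multiset.prod_cons, pow_succ', mul_pow]
      calc b * b ^ Multiset.card s < a ^ n * b ^ Multiset.card s :=
            mul_lt_mul_of_pos_right ha (pow_pos hb _)
        _ ≤ a ^ n * s.prod ^ n := mul_le_mul_of_nonneg_left ih1 (le_trans hb.le ha.le)
    exact ⟨hlt.le, fun _ => hlt⟩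

theorem p5_upper {b : ℝ} (n : ℕ) (s : Multiset ℝ) (h0 : ∀ x ∈ s, 0 ≤ x)
    (h : ∀ x ∈ s, x ^ n ≤ b) : s.prod ^ n ≤ b ^ Multiset.card s := by
  induction s using Multiset.induction with
  | empty => simp
  | cons a s ih =>
    have ih1 := ih (fun x hx => h0 x (Multiset.mem_cons_of_mem hx))
      (fun x hx => h x (Multiset.mem_cons_of_mem hx))
    have ha := h a (Multiset.mem_cons_self a s)
    have ha0 := h0 a (Multiset.mem_cons_self a s)
    rw [Multiset.card_cons, Multiset.prod_cons, pow_succ', mul_pow]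
    exact mul_le_mul ha ih1 (pow_nonneg (Multiset.prod_nonneg
      (fun x hx => h0 x (Multiset.mem_cons_of_mem hx))) _) (le_trans (pow_nonneg ha0 _) ha)

/-- **At most finitely many zeros.**  Let `c` be a zero of `Lam a · t` for infinitely many `t`
(`Set.Infinite`).  Then `c` is integral over `ℤ` (`Lam_eq_aeval`, `isIntegral_of_zero`); let `h = minpoly ℤ c`
(monic, `minpoly.monic`), of degree `D ≥ 1`; `h ∣ fpol a t` for each such `t`
(`minpoly.isIntegrallyClosed_dvd`).  Choose by `exists_prime_pow` such a `t` and a prime power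
`p^m ∣ t` with `p^m > max a D`.  Over `PadicAlgCl p` (algebraically closed, `Fact p.Prime`) the image of `h`
splits; each of its roots `ρ` (there are `D`, with multiplicity) is a root of the image of `fpol a t`, so
`p⁻¹ < ‖ρ‖^(p-1)` and `‖ρ‖^(p^m (p-1)) ≤ (p⁻¹)^(p^m-1)` by `root_lower`, `root_upper`.  The product of
the roots is `± h(0)` (`Polynomial.Splits…prod_roots…`, e.g.
`Polynomial.prod_roots_eq_coeff_zero_of_monic_of_splits`), an integer, `≠ 0` by `root_lower`; let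
`‖h(0)‖ = (p⁻¹)^v` (`norm_int`).  Multiplying over the roots: `(p⁻¹)^D < (p⁻¹)^(v (p-1))`, i.e.
`v (p-1) < D`, and `(p⁻¹)^(v p^m (p-1)) ≤ (p⁻¹)^(D (p^m-1))`, i.e. `D (p^m - 1) ≤ v p^m (p-1)`.  So
`p^m (D - v (p-1)) ≤ D < p^m`, with `D - v (p-1) ≥ 1`: a contradiction. -/
theorem finite_zeros (a : ℕ) (c : ℝ) : {t : ℕ | Lam a c t = 0}.Finite := by
  by_contra hinf
  have hinf : {t : ℕ | Lam a c t = 0}.Infinite := hinf
  have hzero : ∀ t : ℕ, Lam a c t = 0 → aeval c (fpol a t) = 0 := by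
    intro t ht
    rw [← Lam_eq_aeval, ht, zero_mul]
  obtain ⟨t0, ht0⟩ := hinf.nonempty
  have hc : IsIntegral ℤ c := isIntegral_of_zero a c (hzero t0 ht0)
  have hmon : (minpoly ℤ c).Monic := minpoly.monic hc
  set D := (minpoly ℤ c).natDegree with hD
  have hD1 : 0 < D := minpoly.natDegree_pos hc
  obtain ⟨t, htS, ht, p, m, hp, hpt, hM⟩ := exists_prime_pow hinf (max a D)
  have ha : a < p ^ m := lt_of_le_of_lt (le_max_left _ _) hM
  have hDm : D < p ^ m := lt_of_le_of_lt (le_max_right _ _) hM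
  have : Fact p.Prime := ⟨hp⟩
  have hdvd : minpoly ℤ c ∣ fpol a t := minpoly.isIntegrallyClosed_dvd hc (hzero t htS)
  set φ : ℤ →+* PadicAlgCl p := Int.castRingHom (PadicAlgCl p) with hφ
  set g : (PadicAlgCl p)[X] := (minpoly ℤ c).map φ with hg
  have hgm : g.Monic := hmon.map φ
  have hgs : g.Splits := IsAlgClosed.splits g
  have hgd : g.natDegree = D := hmon.natDegree_map φ
  have hcard : Multiset.card g.roots = D := by rw [← hgs.natDegree_eq_card_roots, hgd]
  have hroot : ∀ ρ ∈ g.roots,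
      ∑ j ∈ range (t + 1), (-1) ^ j * (fc a t j : PadicAlgCl p) * ρ ^ j = 0 := by
    intro ρ hρ
    have h1 : eval ρ g = 0 := (mem_roots'.1 hρ).2
    have h2 : eval ρ ((fpol a t).map φ) = 0 := by
      obtain ⟨q, hq⟩ := hdvd
      rw [hq, Polynomial.map_mul, eval_mul, h1, zero_mul]
    rw [fpol, Polynomial.map_sum, eval_finsetSum] at h2
    rw [← h2]
    refine Finset.sum_congr rfl fun j _ => ?_
    simp [hφ]
  have hlow : ∀ x ∈ g.roots.map (fun ρ => ‖ρ‖), (p : ℝ)⁻¹ < x ^ (p - 1) := by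
    intro x hx
    obtain ⟨ρ, hρ, rfl⟩ := Multiset.mem_map.1 hx
    exact root_lower ht hpt ha ρ (hroot ρ hρ)
  have hupp : ∀ x ∈ g.roots.map (fun ρ => ‖ρ‖), x ^ (p ^ m * (p - 1)) ≤ ((p : ℝ)⁻¹) ^ (p ^ m - 1) := by
    intro x hx
    obtain ⟨ρ, hρ, rfl⟩ := Multiset.mem_map.1 hx
    exact root_upper ht hpt ha ρ (hroot ρ hρ)
  have hnn : ∀ x ∈ g.roots.map (fun ρ => ‖ρ‖), 0 ≤ x := by
    intro x hx
    obtain ⟨ρ, -, rfl⟩ := Multiset.mem_map.1 hx
    exact norm_nonneg _
  have hp1 : (1 : ℝ) < p := by exact_mod_cast hp.one_lt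
  have hinv0 : (0 : ℝ) < (p : ℝ)⁻¹ := inv_pos.2 (by linarith)
  have hinv1 : (p : ℝ)⁻¹ < 1 := inv_lt_one_of_one_lt₀ hp1
  have hcard' : Multiset.card (g.roots.map (fun ρ => ‖ρ‖)) = D := by rw [Multiset.card_map, hcard]
  have h1 := (p5_lower hinv0 (p - 1) _ hnn hlow).2 (by
    intro h0
    rw [h0, Multiset.card_zero] at hcard'
    omega)
  have h2 := p5_upper (p ^ m * (p - 1)) _ hnn hupp
  rw [hcard'] at h1 h2
  have hprod : (g.roots.map (fun ρ => ‖ρ‖)).prod = ‖(((minpoly ℤ c).coeff 0 : ℤ) : PadicAlgCl p)‖ := by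
    have h3 := hgs.coeff_zero_eq_prod_roots_of_monic hgm
    have h4 : g.coeff 0 = (((minpoly ℤ c).coeff 0 : ℤ) : PadicAlgCl p) := by
      rw [hg, coeff_map, hφ, Int.coe_castRingHom]
    rw [← h4, h3, norm_mul, norm_pow, norm_neg, norm_one, one_pow, one_mul]
    exact (map_multiset_prod (normHom : PadicAlgCl p →*₀ ℝ) g.roots).symm
  rw [hprod] at h1 h2
  have hne : (minpoly ℤ c).coeff 0 ≠ 0 := by
    intro h0
    rw [h0, Int.cast_zero, norm_zero, zero_pow (by have := hp.two_le; omega)] at h1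
    exact absurd h1 (not_lt.2 (pow_pos hinv0 _).le)
  rw [norm_int p hne, ← pow_mul] at h1 h2
  rw [← pow_mul] at h2
  have h3 := (pow_lt_pow_iff_right_of_lt_one₀ hinv0 hinv1).1 h1
  have h4 := (pow_le_pow_iff_right_of_lt_one₀ hinv0 hinv1).1 h2
  set v := padicValInt p ((minpoly ℤ c).coeff 0) with hv
  have h5 : v * (p ^ m * (p - 1)) = p ^ m * (v * (p - 1)) := by ring
  rw [h5] at h4
  have h6 : p ^ m * (v * (p - 1)) ≤ p ^ m * (D - 1) := Nat.mul_le_mul_left _ (by omega)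
  have h7 : (p ^ m - 1) * D + D = p ^ m * D := by
    have : 1 ≤ p ^ m := by omega
    obtain ⟨q, hq⟩ := Nat.exists_eq_add_of_le this
    rw [hq, Nat.add_sub_cancel_left]
    ring
  have h8 : p ^ m * (D - 1) + p ^ m = p ^ m * D := by
    obtain ⟨q, hq⟩ := Nat.exists_eq_add_of_le hD1
    rw [hq, Nat.add_sub_cancel_left]
    ring
  omega

end Pool.Agent.BetaF
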