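import Mathlib
import Pool.Agent.BetaF.Defs

set_option autoImplicit false

namespace Pool.Agent.BetaF

open Finset

/-- **Three term recurrence** (the one of the Laguerre polynomials).  Put `cⱼ = (-1)ʲ cʲ / ((a+1)…(a+j))`;
so `(a + j) * cⱼ = - c * cⱼ₋₁` for `j ≥ 1`.  Extend all sums to `j ∈ range (s + 3)`
(`Nat.choose_eq_zero_of_lt`).  The claim follows from the coefficient identity
`(s+a+2) C(s+2,j) = (2s+a+3) C(s+1,j) + (a+j) C(s+1,j-1) - (s+1) C(s,j)`   (for `j ≥ 1`; for `j = 0`: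
`s+a+2 = (2s+a+3) - (s+1)`) and
`∑_{j≥1} (a+j) C(s+1,j-1) cⱼ = - c ∑_{j≥1} C(s+1,j-1) cⱼ₋₁ = - c * Lam a c (s+1)`.
The coefficient identity: with `C(s+2,j) = C(s+1,j) + C(s+1,j-1)` and `C(s+1,j) = C(s,j) + C(s,j-1)` it
is `(s+2-j) C(s+1,j-1) = (s+1) C(s+1,j) - (s+1) C(s,j) = (s+1) C(s,j-1)`, true. -/
theorem Lam_rec (a : ℕ) (c : ℝ) (s : ℕ) :
    ((s : ℝ) + a + 2) * Lam a c (s + 2) =
      (2 * s + a + 3 - c) * Lam a c (s + 1) - (s + 1) * Lam a c s := by
  set cf : ℕ → ℝ := fun j => (-1) ^ j * c ^ j / ∏ r ∈ range j, ((a : ℝ) + 1 + r) with hcf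
  have hL : ∀ n, Lam a c n = ∑ j ∈ range (n + 1), (n.choose j : ℝ) * cf j := by
    intro n
    unfold Lam
    refine Finset.sum_congr rfl fun j _ => ?_
    simp only [hcf]
    ring
  have h2 : Lam a c (s + 2) = ∑ j ∈ range (s + 3), ((s + 2).choose j : ℝ) * cf j := hL (s + 2)
  have h1 : Lam a c (s + 1) = ∑ j ∈ range (s + 3), ((s + 1).choose j : ℝ) * cf j := by
    rw [hL, Finset.sum_range_succ _ (s + 2), Nat.choose_eq_zero_of_lt (by omega : s + 1 < s + 2)]
    simp
  have h0 : Lam a c s = ∑ j ∈ range (s + 3), (s.choose j : ℝ) * cf j := by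
    rw [hL, Finset.sum_range_succ _ (s + 2), Finset.sum_range_succ _ (s + 1),
      Nat.choose_eq_zero_of_lt (by omega : s < s + 2), Nat.choose_eq_zero_of_lt (by omega : s < s + 1)]
    simp
  have h1' : Lam a c (s + 1) = ∑ j ∈ range (s + 2), ((s + 1).choose j : ℝ) * cf j := hL (s + 1)
  have hstep : ∀ j : ℕ, ((a : ℝ) + 1 + j) * cf (j + 1) = -c * cf j := by
    intro j
    have hp : (∏ r ∈ range j, ((a : ℝ) + 1 + r)) ≠ 0 := by
      refine Finset.prod_ne_zero_iff.2 fun r _ => ?_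
      positivity
    have hj : ((a : ℝ) + 1 + j) ≠ 0 := by positivity
    simp only [hcf]
    rw [Finset.prod_range_succ]
    field_simp
    ring
  have key : ((s : ℝ) + a + 2) * Lam a c (s + 2) - (2 * s + a + 3) * Lam a c (s + 1) +
      (s + 1) * Lam a c s = -c * Lam a c (s + 1) := by
    have e1 : ((s : ℝ) + a + 2) * Lam a c (s + 2) - (2 * s + a + 3) * Lam a c (s + 1) +
        (s + 1) * Lam a c s = ∑ j ∈ range (s + 3), (((s : ℝ) + a + 2) * ((s + 2).choose j : ℝ) -
          (2 * s + a + 3) * ((s + 1).choose j : ℝ) + (s + 1) * (s.choose j : ℝ)) * cf j := by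
      rw [h2, h1, h0, Finset.mul_sum, Finset.mul_sum, Finset.mul_sum, ← Finset.sum_sub_distrib,
        ← Finset.sum_add_distrib]
      refine Finset.sum_congr rfl fun j _ => ?_
      ring
    rw [e1, Finset.sum_range_succ', h1', Finset.mul_sum]
    have e0 : (((s : ℝ) + a + 2) * ((s + 2).choose 0 : ℝ) - (2 * s + a + 3) * ((s + 1).choose 0 : ℝ) +
        (s + 1) * (s.choose 0 : ℝ)) * cf 0 = 0 := by
      simp only [Nat.choose_zero_right, Nat.cast_one]
      ring
    rw [e0, add_zero]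
    refine Finset.sum_congr rfl fun j hj => ?_
    have hj' : j ≤ s + 1 := by
      have := Finset.mem_range.1 hj
      omega
    have c1 : ((s + 2).choose (j + 1) : ℝ) = ((s + 1).choose j : ℝ) + ((s + 1).choose (j + 1) : ℝ) := by
      rw [Nat.choose_succ_succ]
      push_cast
      ring
    have c2 : ((s + 1).choose (j + 1) : ℝ) = (s.choose j : ℝ) + (s.choose (j + 1) : ℝ) := by
      rw [Nat.choose_succ_succ]
      push_cast
      ring
    have c3 : (s.choose j : ℝ) * (s + 1) = ((s + 1).choose j : ℝ) * (s + 1 - j) := by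
      have h := Nat.choose_mul_succ_eq s j
      have h' : ((s.choose j * (s + 1) : ℕ) : ℝ) = (((s + 1).choose j * (s + 1 - j) : ℕ) : ℝ) := by
        rw [h]
      rw [Nat.cast_mul, Nat.cast_mul, Nat.cast_sub hj'] at h'
      push_cast at h'
      exact h'
    have e2 : (((s : ℝ) + a + 2) * ((s + 2).choose (j + 1) : ℝ) -
        (2 * s + a + 3) * ((s + 1).choose (j + 1) : ℝ) + (s + 1) * (s.choose (j + 1) : ℝ)) =
        ((s + 1).choose j : ℝ) * ((a : ℝ) + 1 + j) := by
      rw [c1]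
      linear_combination (-(s : ℝ) - 1) * c2 - c3
    rw [e2, mul_assoc, hstep]
    ring
  linarith

end Pool.Agent.BetaF
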