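import Mathlib
import Pool.Agent.BetaF.Defs

set_option autoImplicit false

namespace Pool.Agent.BetaF

open Finset

/-- **Oscillation.**  Suppose `0 < y s` for all `s ≥ N`; put `u s = y (s+1) / y s - 1 > -1`.  Dividing the
recurrence (at `s - 1`, `s ≥ N + 1`) by `y s`: `(s+a+1) u s = s * u (s-1) / (1 + u (s-1)) - c`; and
`u/(1+u) = u - u²/(1+u) ≤ u`, so
(1) `(s+a+1) * u s ≤ s * u (s-1) - c`.
Put `κ = c / (2 (a+1)) > 0`, `z s = u s + κ`: (1) gives
(2) `(s+a+1) * z s ≤ s * z (s-1) - κ (a+1)`.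
If `0 < z s` for all `s ≥ N`, then `(s+1) z s ≤ (s+a+1) z s ≤ s z (s-1) - κ (a+1)`, so the sequence
`(s+1) z s` decreases by at least `κ (a+1)` in each step, a contradiction.  So `z s₀ ≤ 0` for some
`s₀ ≥ N`, and then by (2) `z s ≤ 0`, i.e. `u s ≤ -κ`, for all `s ≥ s₀`.  Now `u²/(1+u) ≥ κ²` (as
`u ≤ -κ`, `0 < 1 + u ≤ 1`), so `(s+a+1) u s ≤ s * u (s-1) - s κ²` for `s > s₀`, and with
`Z s = (s+a+1) * u s` and `s * u (s-1) = Z (s-1) - a * u (s-1) ≤ Z (s-1) + a`: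
`Z s ≤ Z (s-1) + a - s κ²`.  This decreases quadratically, but `Z s > -(s+a+1)`, a contradiction. -/
theorem osc (a : ℕ) {c : ℝ} (hc : 0 < c) (y : ℕ → ℝ)
    (hrec : ∀ s : ℕ, ((s : ℝ) + a + 2) * y (s + 2) =
      (2 * s + a + 3 - c) * y (s + 1) - (s + 1) * y s) (N : ℕ) :
    ¬ ∀ s, N ≤ s → 0 < y s := by
  intro hpos
  obtain ⟨u, hu⟩ : ∃ u : ℕ → ℝ, ∀ s, u s = y (s + 1) / y s - 1 := ⟨fun s => y (s + 1) / y s - 1, fun _ => rfl⟩
  have ha : (0 : ℝ) ≤ a := Nat.cast_nonneg a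
  have hu1 : ∀ s, N ≤ s → 0 < 1 + u s := by
    intro s hs
    rw [hu]
    have h1 := hpos s hs
    have h2 := hpos (s + 1) (by omega)
    have h3 : 0 < y (s + 1) / y s := div_pos h2 h1
    linarith
  have hrel : ∀ s : ℕ, N ≤ s → ((s : ℝ) + a + 2) * u (s + 1) = (s + 1) * (u s / (1 + u s)) - c := by
    intro s hs
    have h1 := hpos s hs
    have h2 := hpos (s + 1) (by omega)
    have e0 : 1 + u s = y (s + 1) / y s := by rw [hu]; ring
    rw [e0, hu, hu]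
    have h1' := h1.ne'
    have h2' := h2.ne'
    field_simp
    linear_combination hrec s
  have hrel1 : ∀ s : ℕ, N ≤ s → ((s : ℝ) + a + 2) * u (s + 1) ≤ (s + 1) * u s - c := by
    intro s hs
    have h1 := hu1 s hs
    rw [hrel s hs]
    have h2 : u s / (1 + u s) ≤ u s := by
      rw [div_le_iff₀ h1]
      nlinarith [sq_nonneg (u s)]
    have h3 : (0 : ℝ) ≤ (s : ℝ) + 1 := by positivity
    have := mul_le_mul_of_nonneg_left h2 h3
    linarith
  obtain ⟨κ, hκ⟩ : ∃ κ, κ = c / (2 * ((a : ℝ) + 1)) := ⟨_, rfl⟩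
  have ha1 : (0 : ℝ) < (a : ℝ) + 1 := by positivity
  have hκ0 : 0 < κ := by rw [hκ]; positivity
  have hcκ : c = 2 * ((a : ℝ) + 1) * κ := by
    rw [hκ]
    field_simp
  -- the sequence `z = u + κ`
  have hz : ∀ s : ℕ, N ≤ s → ((s : ℝ) + a + 2) * (u (s + 1) + κ) ≤ (s + 1) * (u s + κ) - κ * (a + 1) := by
    intro s hs
    have h1 := hrel1 s hs
    rw [hcκ] at h1
    linarith
  have hex : ∃ s₀, N ≤ s₀ ∧ u s₀ + κ ≤ 0 := by
    by_contra hcon
    push Not at hcon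
    have hT : ∀ n : ℕ, (((N + n : ℕ) : ℝ) + 1) * (u (N + n) + κ) ≤ ((N : ℝ) + 1) * (u N + κ) - n * (κ * (a + 1)) := by
      intro n
      induction n with
      | zero => simp
      | succ n ih =>
        have h1 := hz (N + n) (by omega)
        have h2 := hcon (N + n + 1) (by omega)
        have e1 : ((N + (n + 1) : ℕ) : ℝ) = ((N + n : ℕ) : ℝ) + 1 := by push_cast; ring
        rw [e1]
        have e2 : N + (n + 1) = N + n + 1 := by ring
        rw [e2]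
        have h3 : (((N + n : ℕ) : ℝ) + 1 + 1) * (u (N + n + 1) + κ) ≤
            (((N + n : ℕ) : ℝ) + a + 2) * (u (N + n + 1) + κ) :=
          mul_le_mul_of_nonneg_right (by linarith) h2.le
        push_cast at h1 h3 ih ⊢
        linarith
    obtain ⟨n, hn⟩ := exists_nat_gt (((N : ℝ) + 1) * (u N + κ) / (κ * (a + 1)))
    have hp : 0 < κ * ((a : ℝ) + 1) := by positivity
    rw [div_lt_iff₀ hp] at hn
    have h1 := hT n
    have h2 := hcon (N + n) (by omega)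
    have h3 : 0 < (((N + n : ℕ) : ℝ) + 1) * (u (N + n) + κ) := by positivity
    linarith
  obtain ⟨s₀, hs₀, hz₀⟩ := hex
  have hall : ∀ n : ℕ, u (s₀ + n) + κ ≤ 0 := by
    intro n
    induction n with
    | zero => exact hz₀
    | succ n ih =>
      have h1 := hz (s₀ + n) (by omega)
      have h2 : 0 < (((s₀ + n : ℕ) : ℝ) + a + 2) := by positivity
      have h3 : (((s₀ + n : ℕ) : ℝ) + 1) * (u (s₀ + n) + κ) ≤ 0 :=
        mul_nonpos_of_nonneg_of_nonpos (by positivity) ih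
      have h4 : 0 < κ * ((a : ℝ) + 1) := by positivity
      have h5 : (((s₀ + n : ℕ) : ℝ) + a + 2) * (u (s₀ + n + 1) + κ) ≤ 0 := by linarith
      have e2 : s₀ + (n + 1) = s₀ + n + 1 := by ring
      rw [e2]
      by_contra hcon
      push Not at hcon
      have := mul_pos h2 hcon
      linarith
  have hZ : ∀ n : ℕ, (((s₀ + n : ℕ) : ℝ) + a + 1) * u (s₀ + n) ≤ n * a - κ ^ 2 * (n * (n + 1) / 2) := by
    intro n
    induction n with
    | zero =>
      have h1 := hall 0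
      have h2 : (0 : ℝ) ≤ ((s₀ + 0 : ℕ) : ℝ) + a + 1 := by positivity
      have h3 : u (s₀ + 0) ≤ 0 := by linarith
      have := mul_nonpos_of_nonneg_of_nonpos h2 h3
      simpa using this
    | succ n ih =>
      have h1 := hall n
      have h2 := hu1 (s₀ + n) (by omega)
      have h3 := hrel (s₀ + n) (by omega)
      have h4 : u (s₀ + n) / (1 + u (s₀ + n)) ≤ u (s₀ + n) - κ ^ 2 := by
        rw [div_le_iff₀ h2]
        nlinarith [sq_nonneg (u (s₀ + n)), sq_nonneg κ, mul_nonneg (sq_nonneg κ) (neg_nonneg.2 (by linarith : u (s₀ + n) ≤ 0))]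
      have h5 : (((s₀ + n : ℕ) : ℝ) + 1) * (u (s₀ + n) / (1 + u (s₀ + n))) ≤
          (((s₀ + n : ℕ) : ℝ) + 1) * (u (s₀ + n) - κ ^ 2) :=
        mul_le_mul_of_nonneg_left h4 (by positivity)
      have h6 : -(a * u (s₀ + n)) ≤ a := by nlinarith
      have h7 : κ ^ 2 * ((n : ℝ) + 1) ≤ κ ^ 2 * (((s₀ + n : ℕ) : ℝ) + 1) := by
        apply mul_le_mul_of_nonneg_left _ (sq_nonneg κ)
        push_cast
        have : (0 : ℝ) ≤ (s₀ : ℝ) := Nat.cast_nonneg _
        linarith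
      have e1 : ((s₀ + (n + 1) : ℕ) : ℝ) = ((s₀ + n : ℕ) : ℝ) + 1 := by push_cast; ring
      have e2 : s₀ + (n + 1) = s₀ + n + 1 := by ring
      rw [e1, e2]
      have e3 : (((s₀ + n : ℕ) : ℝ) + 1 + a + 1) * u (s₀ + n + 1) = (((s₀ + n : ℕ) : ℝ) + a + 2) * u (s₀ + n + 1) := by ring
      rw [e3, h3]
      push_cast at ih h5 h7 ⊢
      nlinarith
  obtain ⟨n, hn⟩ := exists_nat_gt (2 * (2 * (a : ℝ) + s₀ + 2) / κ ^ 2)
  have hκ2 : 0 < κ ^ 2 := by positivity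
  rw [div_lt_iff₀ hκ2] at hn
  have h1 := hZ n
  have h2 := hu1 (s₀ + n) (by omega)
  have h3 : -(((s₀ + n : ℕ) : ℝ) + a + 1) < (((s₀ + n : ℕ) : ℝ) + a + 1) * u (s₀ + n) := by
    have h4 : 0 < (((s₀ + n : ℕ) : ℝ) + a + 1) := by positivity
    nlinarith
  have h5 : (2 * (a : ℝ) + s₀ + 2) * ((n : ℝ) + 1) ≤ κ ^ 2 * (n * (n + 1) / 2) := by
    have h6 : (0 : ℝ) ≤ (n : ℝ) + 1 := by positivity
    nlinarith
  push_cast at h1 h3
  have h8 : (0 : ℝ) ≤ (s₀ : ℝ) * n := by positivity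
  have h9 : (0 : ℝ) ≤ (a : ℝ) * n := by positivity
  nlinarith

end Pool.Agent.BetaF
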