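import Mathlib
import Pool.Agent.BetaF.R1
import Pool.Agent.BetaF.R2
import Pool.Agent.BetaF.P5
import Pool.Agent.BetaF.C

set_option autoImplicit false

namespace Pool.Agent.BetaF

open Finset

/-- a strict sign change -/
theorem Lam_sign (a : ℕ) {c : ℝ} (hc : 0 < c) : ∃ s, Lam a c s * Lam a c (s + 1) < 0 := by
  by_contra hcon
  push Not at hcon
  obtain ⟨N, hN⟩ : ∃ N, ∀ s, N ≤ s → Lam a c s ≠ 0 := by
    obtain ⟨N, hN⟩ := (finite_zeros a c).bddAbove
    refine ⟨N + 1, fun s hs h0 => ?_⟩
    have := hN (show s ∈ {t : ℕ | Lam a c t = 0} from h0)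
    omega
  have key : ∀ y : ℕ → ℝ, (∀ s : ℕ, ((s : ℝ) + a + 2) * y (s + 2) =
      (2 * s + a + 3 - c) * y (s + 1) - (s + 1) * y s) → (∀ s, 0 ≤ y s * y (s + 1)) →
      (∀ s, N ≤ s → y s ≠ 0) → ¬ 0 < y N := by
    intro y hrec hpos hne h0
    refine osc a hc y hrec N fun s hs => ?_
    induction s, hs using Nat.le_induction with
    | base => exact h0
    | succ s hs ih =>
      have h1 := hpos s
      have h2 := hne (s + 1) (by omega)
      rcases lt_or_gt_of_ne h2 with h3 | h3
      · exact absurd h1 (not_le.mpr (mul_neg_of_pos_of_neg ih h3))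
      · exact h3
  rcases lt_or_gt_of_ne (hN N le_rfl) with h | h
  · refine key (fun s => -Lam a c s) (fun s => ?_) (fun s => ?_) (fun s hs => ?_) (by
      simpa using h)
    · have := Lam_rec a c s
      linear_combination -this
    · have := hcon s
      simpa using this
    · exact neg_ne_zero.mpr (hN s hs)
  · exact key (Lam a c) (Lam_rec a c) hcon hN h

end Pool.Agent.BetaF
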