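import Mathlib
import Pool.Agent.BetaF.O
import Pool.Agent.BetaF.T2
import Pool.Agent.BetaL.Bound

set_option autoImplicit false

namespace Pool.Agent.BetaF

open Finset Pool.Agent.MP_1e96f1_co Pool.Agent.BetaL

/-- the terms agree -/
lemma term_eq (a n s : ℕ) {x L : ℝ} (hn : (n : ℝ) ≠ 0) (hx : x ≠ 0) (hL : L ≠ 0) (j : ℕ) :
    (n.choose j : ℝ) * dd x a L (s * (L + s)) j =
      (-1) ^ j * (s.choose j : ℝ) * (n * L / x) ^ j *
        ∏ r ∈ range j, ((1 - r * (1 / (n : ℝ))) * (1 + (s + r) * (1 / L)) /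
          (((a : ℝ) + 1 + r) * (1 - (1 + r) * (1 / x)))) := by
  rw [dd_prod, mul_assoc, mul_assoc]
  congr 1
  induction j with
  | zero => simp
  | succ j ih =>
    rw [Finset.prod_range_succ, Finset.prod_range_succ, ih]
    have h1 : (s.choose (j + 1) : ℝ) = (s.choose j : ℝ) * (s - j) / (j + 1) := by
      have hj : ((j : ℝ) + 1) ≠ 0 := by positivity
      rw [eq_div_iff hj]
      rcases le_or_gt j s with h | h
      · have := Nat.choose_succ_right_eq s j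
        have h2 : ((s.choose (j + 1) * (j + 1) : ℕ) : ℝ) = ((s.choose j * (s - j) : ℕ) : ℝ) := by
          rw [this]
        push_cast [Nat.cast_sub h] at h2
        exact h2
      · rw [Nat.choose_eq_zero_of_lt h, Nat.choose_eq_zero_of_lt (by omega)]
        simp
    have e1 : (1 - (1 + (j : ℝ)) * (1 / x)) = (x - 1 - j) * x⁻¹ := by
      field_simp
      ring
    have e2 : (1 - (j : ℝ) * (1 / (n : ℝ))) = (n - j) * (n : ℝ)⁻¹ := by
      field_simp
    have e3 : (1 + ((s : ℝ) + j) * (1 / L)) = (s + L + j) * L⁻¹ := by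
      field_simp
      ring
    have e4 : (n * L / x) * ((1 - (j : ℝ) * (1 / (n : ℝ))) * (1 + ((s : ℝ) + j) * (1 / L)) /
        (((a : ℝ) + 1 + j) * (1 - (1 + (j : ℝ)) * (1 / x)))) =
        (n - j) * (s + L + j) / (((a : ℝ) + 1 + j) * (x - 1 - j)) := by
      rw [e1, e2, e3]
      have f1 : (n : ℝ) * (n : ℝ)⁻¹ = 1 := mul_inv_cancel₀ hn
      have f2 : L * L⁻¹ = 1 := mul_inv_cancel₀ hL
      have f3 : x⁻¹ * x = 1 := inv_mul_cancel₀ hx
      simp only [div_eq_mul_inv, mul_inv, inv_inv]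
      calc (n : ℝ) * L * x⁻¹ * (((n : ℝ) - j) * (n : ℝ)⁻¹ * ((s + L + j) * L⁻¹) *
            (((a : ℝ) + 1 + j)⁻¹ * ((x - 1 - j)⁻¹ * x)))
          = ((n : ℝ) * (n : ℝ)⁻¹) * (L * L⁻¹) * (x⁻¹ * x) * ((n - j) * (s + L + j) *
            (((a : ℝ) + 1 + j)⁻¹ * (x - 1 - j)⁻¹)) := by ring
        _ = _ := by rw [f1, f2, f3]; ring
    have e5 : (s.choose (j + 1) : ℝ) * ((n * L / x) ^ (j + 1) *
        ((∏ r ∈ range j, ((1 - r * (1 / (n : ℝ))) * (1 + (s + r) * (1 / L)) /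
          (((a : ℝ) + 1 + r) * (1 - (1 + r) * (1 / x))))) *
        ((1 - (j : ℝ) * (1 / (n : ℝ))) * (1 + ((s : ℝ) + j) * (1 / L)) /
        (((a : ℝ) + 1 + j) * (1 - (1 + (j : ℝ)) * (1 / x)))))) =
        (s.choose (j + 1) : ℝ) * ((n * L / x) ^ j *
        ((∏ r ∈ range j, ((1 - r * (1 / (n : ℝ))) * (1 + (s + r) * (1 / L)) /
          (((a : ℝ) + 1 + r) * (1 - (1 + r) * (1 / x)))))) *
        ((n * L / x) * ((1 - (j : ℝ) * (1 / (n : ℝ))) * (1 + ((s : ℝ) + j) * (1 / L)) /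
        (((a : ℝ) + 1 + j) * (1 - (1 + (j : ℝ)) * (1 / x)))))) := by
      rw [pow_succ]; ring
    rw [e5, e4, h1]
    simp only [div_eq_mul_inv, mul_inv]
    ring

theorem Ps_eq_Phi (a n s : ℕ) {x L : ℝ} (hn : (n : ℝ) ≠ 0) (hx : x ≠ 0) (hL : L ≠ 0) :
    Ps n x a L (s * (L + s)) = Phi a s (1 / n) (1 / L) (1 / x) (n * L / x) := by
  unfold Ps Phi
  have h1 : ∑ j ∈ range (n + 1), (n.choose j : ℝ) * dd x a L (s * (L + s)) j =
      ∑ j ∈ range (n + s + 1), (n.choose j : ℝ) * dd x a L (s * (L + s)) j := by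
    refine Finset.sum_subset (Finset.range_subset_range.mpr (by omega)) fun j _ hj => ?_
    rw [Finset.mem_range, not_lt] at hj
    rw [Nat.choose_eq_zero_of_lt (by omega)]
    simp
  have h2 : ∀ f : ℕ → ℝ, ∑ j ∈ range (s + 1), (-1) ^ j * (s.choose j : ℝ) * f j =
      ∑ j ∈ range (n + s + 1), (-1) ^ j * (s.choose j : ℝ) * f j := by
    intro f
    refine Finset.sum_subset (Finset.range_subset_range.mpr (by omega)) fun j _ hj => ?_
    rw [Finset.mem_range, not_lt] at hj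
    rw [Nat.choose_eq_zero_of_lt (by omega)]
    simp
  rw [h1]
  have h3 := h2 (fun j => (n * L / x) ^ j *
        ∏ r ∈ range j, ((1 - r * (1 / (n : ℝ))) * (1 + (s + r) * (1 / L)) /
          (((a : ℝ) + 1 + r) * (1 - (1 + r) * (1 / x)))))
  simp only [← mul_assoc] at h3
  rw [h3]
  refine Finset.sum_congr rfl fun j _ => ?_
  exact term_eq a n s hn hx hL j

/-- real consequences of Noda's inequalities -/
lemma noda_real {Ω : Type*} [Fintype Ω] [DecidableEq Ω] {Bs : Finset (Finset Ω)} {v d n A : ℕ}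
    (hD : IsDesign Bs v (d + 2 * n + 1 + A) d) (hB : IsBeta Bs v d (n + 1)) (hn : 1 ≤ n)
    {x L : ℝ} (hx : x = ((d + 2 * n + 1 : ℕ) : ℝ)) (hL : L = (v : ℝ) - 2 * x + 1) :
    (n : ℝ) * L ≤ (A + 1) * x ∧ x * ((A : ℝ) - 1) ≤ (n + 1) * L := by
  obtain ⟨hdk, hkv⟩ := design_facts hD
  have hup := noda_upper hD hB (by omega) (by omega)
  have hlow := noda_lower hD hB (by omega)
  have hkd : d + 2 * n + 1 + A - d = 2 * n + 1 + A := by omega
  rw [hkd] at hup hlow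
  have hxd : x = d + 2 * n + 1 := by rw [hx]; push_cast; ring
  have hup' : (n : ℝ) * v ≤ (x - 1) * (2 * n + 1 + A) := by
    have : ((n * v : ℕ) : ℝ) ≤ (((d + 2 * n) * (2 * n + 1 + A) : ℕ) : ℝ) := by
      exact_mod_cast hup
    push_cast at this
    rw [hxd]
    have e : ((d : ℝ) + 2 * n + 1 - 1) = d + 2 * n := by ring
    rw [e]
    exact this
  have hlow' : (x + 1) * (2 * n + 1 + A) ≤ (n + 1) * (v : ℝ) := by
    have : (((d + 2 * n + 2) * (2 * n + 1 + A) : ℕ) : ℝ) ≤ (((n + 1) * v : ℕ) : ℝ) := by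
      exact_mod_cast hlow
    push_cast at this
    rw [hxd]
    have e : ((d : ℝ) + 2 * n + 1 + 1) = d + 2 * n + 2 := by ring
    rw [e]
    exact this
  have hn1 : (1 : ℝ) ≤ n := by exact_mod_cast hn
  have hA0 : (0 : ℝ) ≤ A := by positivity
  have hd0 : (0 : ℝ) ≤ d := by positivity
  constructor
  · have e : (n : ℝ) * L = n * v - 2 * n * x + n := by rw [hL]; ring
    rw [e]
    linarith
  · have e : ((n : ℝ) + 1) * L = (n + 1) * v - 2 * (n + 1) * x + (n + 1) := by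
      rw [hL]; ring
    rw [e]
    linarith

/-- **Large index.** -/
theorem large_index.{u} (A : ℕ) {ε : ℝ} (hε : 0 < ε) :
    ∃ n0 : ℕ, ∀ (Ω : Type u) [Fintype Ω] [DecidableEq Ω] (Bs : Finset (Finset Ω)) (v d n : ℕ),
      IsDesign Bs v (d + 2 * n + 1 + A) d → 0 < d → IsBeta Bs v d (n + 1) → n0 ≤ n → 1 ≤ n →
      2 * (d + 2 * n + 1) ≤ v + 1 →
      (n : ℝ) * ((v : ℝ) - 2 * ((d + 2 * n + 1 : ℕ) : ℝ) + 1) < ε * ((d + 2 * n + 1 : ℕ) : ℝ) := by
  obtain ⟨δ, hδ, hmain⟩ := compact_sign A (ε := ε) (C := (A : ℝ) + 1)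
    (fun c hc => Lam_sign A (hε.trans_le hc.1))
  obtain ⟨n1, hn1⟩ := exists_nat_gt (1 / δ)
  obtain ⟨n2, hn2⟩ := exists_nat_gt (1 / (ε * δ))
  refine ⟨max n1 n2, ?_⟩
  intro Ω _ _ Bs v d n hD hd hB hn0 hn hv
  by_contra hcon
  push Not at hcon
  set x : ℝ := ((d + 2 * n + 1 : ℕ) : ℝ) with hx
  set L : ℝ := (v : ℝ) - 2 * x + 1 with hL
  have hxd : x = d + 2 * n + 1 := by rw [hx]; push_cast; ring
  have hn1' : (1 : ℝ) ≤ n := by exact_mod_cast hn
  have hn0' : (0 : ℝ) < n := by linarith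
  have hd0 : (0 : ℝ) ≤ d := by positivity
  have hx0 : 0 < x := by rw [hxd]; positivity
  obtain ⟨hnL, -⟩ := noda_real hD hB hn hx hL
  have hT := tits hD hd hB hn (by omega)
  have hxn : (n : ℝ) * n ≤ x := by
    have : (((n + 1) ^ 2 : ℕ) : ℝ) ≤ (d : ℝ) := by exact_mod_cast hT
    push_cast at this
    rw [hxd]
    nlinarith
  have hL0 : 0 < L := by
    have h1 : 0 < (n : ℝ) * L := lt_of_lt_of_le (mul_pos hε hx0) hcon
    exact pos_of_mul_pos_right h1 hn0'.le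
  have hLn : ε * n ≤ L := by
    have h1 : (n : ℝ) * (ε * n) ≤ n * L := by
      calc (n : ℝ) * (ε * n) = ε * (n * n) := by ring
        _ ≤ ε * x := mul_le_mul_of_nonneg_left hxn hε.le
        _ ≤ n * L := hcon
    exact le_of_mul_le_mul_left h1 hn0'
  have b1 : (n1 : ℝ) ≤ n := by exact_mod_cast (le_max_left n1 n2).trans hn0
  have b2 : (n2 : ℝ) ≤ n := by exact_mod_cast (le_max_right n1 n2).trans hn0
  have d1 : 1 / (n : ℝ) < δ := by
    rw [div_lt_iff₀ hn0']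
    rw [div_lt_iff₀ hδ] at hn1
    nlinarith
  have d2 : 1 / L < δ := by
    rw [div_lt_iff₀ hL0]
    rw [div_lt_iff₀ (mul_pos hε hδ)] at hn2
    have h1 : 1 < n * (ε * δ) := by
      refine lt_of_lt_of_le hn2 ?_
      exact mul_le_mul_of_nonneg_right b2 (mul_pos hε hδ).le
    have h2 : δ * (ε * n) ≤ δ * L := mul_le_mul_of_nonneg_left hLn hδ.le
    linarith
  have d3 : 1 / x < δ := by
    refine lt_of_le_of_lt ?_ d1
    apply one_div_le_one_div_of_le hn0'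
    rw [hxd]; linarith
  have c1 : (n : ℝ) * L / x ∈ Set.Icc ε ((A : ℝ) + 1) := by
    constructor
    · rw [le_div_iff₀ hx0]; exact hcon
    · rw [div_le_iff₀ hx0]; exact hnL
  have hab : ∀ t : ℝ, 0 < t → 1 / t < δ → |1 / t| < δ := by
    intro t ht h
    rw [abs_of_pos (by positivity)]; exact h
  obtain ⟨s, hs1, hs2⟩ := hmain (1 / n) (1 / L) (1 / x) (hab _ hn0' d1) (hab _ hL0 d2)
    (hab _ hx0 d3) _ c1
  have hsx : (s : ℝ) + 2 < x := by
    rw [mul_one_div, div_lt_one hx0] at hs1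
    exact hs1
  have p1 := Ps_eq_Phi A n s hn0'.ne' hx0.ne' hL0.ne'
  have p2 := Ps_eq_Phi A n (s + 1) hn0'.ne' hx0.ne' hL0.ne'
  rw [← p1, ← p2] at hs2
  set w : ℝ := (v : ℝ) - (d + 2 * n + 1 + A : ℕ) with hw
  have hLw : w + A + 1 - x = L := by
    rw [hL, hw, hxd]; push_cast; ring
  have hwa : w + A + 1 = L + x := by linarith
  have hx1 : (n : ℝ) + 1 < x := by rw [hxd]; linarith
  have g1 := G_eq_Ps (x := x) (w := w) (a := (A : ℝ)) (by positivity) (s * (L + s)) n hx1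
  have g2 := G_eq_Ps (x := x) (w := w) (a := (A : ℝ)) (by positivity)
    (((s + 1 : ℕ) : ℝ) * (L + (s + 1 : ℕ))) n hx1
  rw [hLw, hwa] at g1 g2
  refine no_sign_change hD hB hn (by omega) (x := x) (a := (A : ℝ)) (w := w) hx
    (by rw [hxd]; push_cast; ring) hw (by rw [hx]; exact_mod_cast hv) s ?_
  rw [← hL]
  have hs0 : (0 : ℝ) ≤ s := by positivity
  have q1 : 0 < x * (L + x) - s * (L + s) := by nlinarith
  have q2 : 0 < x * (L + x) - ((s + 1 : ℕ) : ℝ) * (L + (s + 1 : ℕ)) := by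
    push_cast
    nlinarith
  have q3 : x * x * (G x w A n (s * (L + s)) *
      G x w A n (((s + 1 : ℕ) : ℝ) * (L + (s + 1 : ℕ)))) < 0 := by
    calc x * x * (G x w A n (s * (L + s)) *
        G x w A n (((s + 1 : ℕ) : ℝ) * (L + (s + 1 : ℕ))))
        = (x * G x w A n (s * (L + s))) *
          (x * G x w A n (((s + 1 : ℕ) : ℝ) * (L + (s + 1 : ℕ)))) := by ring
      _ = ((x * (L + x) - s * (L + s)) * (x * (L + x) - ((s + 1 : ℕ) : ℝ) * (L + (s + 1 : ℕ)))) *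
          (Ps n x A L (s * (L + s)) *
            Ps n x A L (((s + 1 : ℕ) : ℝ) * (L + (s + 1 : ℕ)))) := by rw [g1, g2]; ring
      _ < 0 := mul_neg_of_pos_of_neg (mul_pos q1 q2) hs2
  by_contra hc
  push Not at hc
  exact absurd q3 (not_lt.mpr (mul_nonneg (by positivity) hc))

end Pool.Agent.BetaF
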