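import Mathlib
import Pool.Agent.BetaF.G
import Pool.Agent.BetaL.Asym

set_option autoImplicit false

namespace Pool.Agent.BetaF

open Finset Pool.Agent.MP_1e96f1_co Pool.Agent.BetaL

/-- large index, oriented case -/
theorem side_large.{u} {ε : ℝ} (hε : 0 < ε) (hε' : ε ≤ 1 / 8) :
    ∃ n1 : ℕ, ∀ (Ω : Type u) [Fintype Ω] [DecidableEq Ω] (Bs : Finset (Finset Ω)) (v k d n : ℕ),
      IsDesign Bs v k d → 0 < d → IsBeta Bs v d (n + 1) → 2 ≤ n → d + 2 * n + 1 ≤ k →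
      2 * n1 + 15 < k - d → (k = d + 2 * n + 1 → 2 * k ≤ v + 1) →
      k ≤ d + 2 * n + 2 ∧ ((n : ℝ) + 1) * |(v : ℝ) - 2 * k| ≤ 4 * ε * k := by
  choose N hN using fun A => large_index.{u} A hε
  obtain ⟨n2, hn2⟩ := exists_nat_gt (3 / ε)
  refine ⟨(Finset.range 15).sup N + n2, ?_⟩
  intro Ω _ _ Bs v k d n hD hd hB hn hk hlarge hv
  obtain ⟨hdk, hkv⟩ := design_facts hD
  obtain ⟨A, rfl⟩ : ∃ A, k = d + 2 * n + 1 + A := ⟨k - (d + 2 * n + 1), by omega⟩
  have hA14 : A ≤ 14 := by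
    by_contra hcon
    push Not at hcon
    refine no_beta hD hd ?_ hB
    unfold Far
    left
    omega
  have hNn : N A ≤ n := by
    have h1 : N A ≤ (Finset.range 15).sup N := Finset.le_sup (Finset.mem_range.mpr (by omega))
    omega
  have hn2n : n2 ≤ n := by omega
  set x : ℝ := ((d + 2 * n + 1 : ℕ) : ℝ) with hx
  set L : ℝ := (v : ℝ) - 2 * x + 1 with hL
  have hxd : x = d + 2 * n + 1 := by rw [hx]; push_cast; ring
  have hn2' : (2 : ℝ) ≤ n := by exact_mod_cast hn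
  have hn0 : (0 : ℝ) < n := by linarith
  have hd0 : (0 : ℝ) ≤ d := by positivity
  have hx0 : 0 < x := by rw [hxd]; positivity
  have hA0 : (0 : ℝ) ≤ A := by positivity
  obtain ⟨hnL, hlow⟩ := noda_real hD hB (by omega) hx hL
  have hL0 : 0 ≤ L := by
    rcases Nat.eq_zero_or_pos A with h0 | h0
    · have h1 : 2 * (d + 2 * n + 1 + A) ≤ v + 1 := hv (by omega)
      have h2 : 2 * (d + 2 * n + 1) ≤ v + 1 := by omega
      have h3 : 2 * x ≤ v + 1 := by rw [hx]; exact_mod_cast h2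
      rw [hL]; linarith
    · have h1 : (1 : ℝ) ≤ A := by exact_mod_cast h0
      have h3 : 0 ≤ x * ((A : ℝ) - 1) := mul_nonneg (by linarith) (by linarith)
      have h4 : 0 ≤ ((n : ℝ) + 1) * L := h3.trans hlow
      exact nonneg_of_mul_nonneg_right h4 (by positivity)
  have hv2 : 2 * (d + 2 * n + 1) ≤ v + 1 := by
    have : 2 * x ≤ v + 1 := by rw [hL] at hL0; linarith
    rw [hx] at this
    exact_mod_cast this
  have hmain := hN A Ω Bs v d n hD hd hB hNn (by omega) hv2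
  rw [← hx, ← hL] at hmain
  have hA1 : A ≤ 1 := by
    by_contra hcon
    push Not at hcon
    have h1 : (2 : ℝ) ≤ A := by exact_mod_cast hcon
    have h2 : x ≤ x * ((A : ℝ) - 1) := by nlinarith
    have h3 : ((n : ℝ) + 1) * L ≤ 2 * (n * L) := by nlinarith
    nlinarith
  refine ⟨by omega, ?_⟩
  have hT := tits hD hd hB (by omega) (by omega)
  have hxn : (n : ℝ) * n ≤ x := by
    have : (((n + 1) ^ 2 : ℕ) : ℝ) ≤ (d : ℝ) := by exact_mod_cast hT
    push_cast at this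
    rw [hxd]
    nlinarith
  have h3n : 3 * (n : ℝ) ≤ ε * x := by
    have h1 : (n2 : ℝ) ≤ n := by exact_mod_cast hn2n
    rw [div_lt_iff₀ hε] at hn2
    have h2 : 3 ≤ n * ε := by nlinarith
    calc 3 * (n : ℝ) ≤ (n * ε) * n := mul_le_mul_of_nonneg_right h2 hn0.le
      _ = ε * (n * n) := by ring
      _ ≤ ε * x := mul_le_mul_of_nonneg_left hxn hε.le
  have hA1' : (A : ℝ) ≤ 1 := by exact_mod_cast hA1
  have hkx : ((d + 2 * n + 1 + A : ℕ) : ℝ) = x + A := by rw [hxd]; push_cast; ring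
  have hgap : (v : ℝ) - 2 * ((d + 2 * n + 1 + A : ℕ) : ℝ) = L - 1 - 2 * A := by
    rw [hL, hkx]; ring
  have habs : |(v : ℝ) - 2 * ((d + 2 * n + 1 + A : ℕ) : ℝ)| ≤ L + 3 := by
    rw [hgap, abs_le]
    constructor <;> linarith
  calc ((n : ℝ) + 1) * |(v : ℝ) - 2 * ((d + 2 * n + 1 + A : ℕ) : ℝ)|
      ≤ ((n : ℝ) + 1) * (L + 3) := mul_le_mul_of_nonneg_left habs (by positivity)
    _ ≤ 2 * n * (L + 3) := mul_le_mul_of_nonneg_right (by linarith) (by linarith)
    _ = 2 * (n * L) + 2 * (3 * n) := by ring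
    _ ≤ 4 * ε * x := by linarith
    _ ≤ 4 * ε * ((d + 2 * n + 1 + A : ℕ) : ℝ) := by
      rw [hkx]
      exact mul_le_mul_of_nonneg_left (by linarith) (by positivity)

/-- small `m` -/
lemma small_m {M D k v i ε : ℝ} (hM : 1 ≤ M) (hk : 1 ≤ k) (hD : 0 ≤ D) (hε : 0 < ε)
    (hi : 0 ≤ i) (hiM : i ≤ M) (h : 16 * D ^ 4 ≤ M ^ 8 * k ^ 3) (hv : v ≤ 2 * k + D)
    (hV : (2 + M ^ 2) * (M ^ 12 / ε ^ 4) < v) : i * D ≤ ε * k := by
  have h1 : D ≤ M ^ 2 * k := by
    have h2 : D ^ 4 ≤ (M ^ 2 * k) ^ 4 := by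
      have h3 : k ^ 3 ≤ k ^ 4 := pow_le_pow_right₀ hk (by norm_num)
      have h4 : M ^ 8 * k ^ 3 ≤ M ^ 8 * k ^ 4 := mul_le_mul_of_nonneg_left h3 (by positivity)
      have h5 : 0 ≤ D ^ 4 := by positivity
      calc D ^ 4 ≤ 16 * D ^ 4 := by linarith
        _ ≤ M ^ 8 * k ^ 4 := h.trans h4
        _ = (M ^ 2 * k) ^ 4 := by ring
    exact le_of_pow_le_pow_left₀ (by norm_num) (by positivity) h2
  have h2 : M ^ 12 / ε ^ 4 < k := by
    have h3 : v ≤ (2 + M ^ 2) * k := by linarith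
    have h4 : (2 + M ^ 2) * (M ^ 12 / ε ^ 4) < (2 + M ^ 2) * k := lt_of_lt_of_le hV h3
    exact lt_of_mul_lt_mul_left h4 (by positivity)
  rw [div_lt_iff₀ (by positivity)] at h2
  have h3 : (M * D) ^ 4 ≤ (ε * k) ^ 4 := by
    have h5 : 0 ≤ D ^ 4 := by positivity
    have h6 : M ^ 4 * D ^ 4 ≤ M ^ 4 * (M ^ 8 * k ^ 3) :=
      mul_le_mul_of_nonneg_left (by linarith) (by positivity)
    calc (M * D) ^ 4 = M ^ 4 * D ^ 4 := by ring
      _ ≤ M ^ 4 * (M ^ 8 * k ^ 3) := h6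
      _ = M ^ 12 * k ^ 3 := by ring
      _ ≤ (k * ε ^ 4) * k ^ 3 := mul_le_mul_of_nonneg_right h2.le (by positivity)
      _ = (ε * k) ^ 4 := by ring
  have h4 : M * D ≤ ε * k := le_of_pow_le_pow_left₀ (by norm_num) (by positivity) h3
  exact (mul_le_mul_of_nonneg_right hiM hD).trans h4

/-- The main theorem. -/
theorem finitely_many.{u} {ε : ℝ} (hε : 0 < ε) :
    ∃ V : ℕ, ∀ (Ω : Type u) [Fintype Ω] [DecidableEq Ω] (Bs : Finset (Finset Ω)) (v k d i : ℕ),
      IsDesign Bs v k d → 0 < d → IsBeta Bs v d i → 3 ≤ i → i + 2 ≤ k - d → V < v →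
      (k - d ≤ 2 * i ∧ 2 * i ≤ k - d + 2) ∧ (i : ℝ) * |(v : ℝ) - 2 * k| ≤ ε * k := by
  set ε' : ℝ := min (ε / 16) (1 / 8) with hε'
  have e0 : 0 < ε' := lt_min (by positivity) (by norm_num)
  have e1 : ε' ≤ ε / 16 := min_le_left _ _
  have e2 : ε' ≤ 1 / 8 := min_le_right _ _
  obtain ⟨n1, hn1⟩ := side_large.{u} e0 e2
  obtain ⟨V1, hV1⟩ := exists_nat_gt
    ((2 + ((2 * n1 + 15 : ℕ) : ℝ) ^ 2) * (((2 * n1 + 15 : ℕ) : ℝ) ^ 12 / ε ^ 4))
  refine ⟨max V1 ((2 * n1 + 15) ^ 12), ?_⟩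
  intro Ω _ _ Bs v k d i hD hd hB hi hi' hv
  obtain ⟨hdk, hkv⟩ := design_facts hD
  have hvV1 : V1 < v := lt_of_le_of_lt (le_max_left _ _) hv
  have hvM : (2 * n1 + 15) ^ 12 < v := lt_of_le_of_lt (le_max_right _ _) hv
  have hk0 : (1 : ℝ) ≤ k := by exact_mod_cast (by omega : 1 ≤ k)
  rcases le_or_gt (k - d) (2 * n1 + 15) with hm | hm
  · obtain ⟨m1, -, m3⟩ := main hD hd hB hi hi'
    constructor
    · by_contra hcon
      have h1 : 2 * i + 1 ≤ k - d ∨ k - d + 3 ≤ 2 * i := by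
        by_contra hc
        apply hcon
        omega
      have h2 := m3 h1
      have h3 : (k - d - 1) ^ 12 ≤ (2 * n1 + 15) ^ 12 := Nat.pow_le_pow_left (by omega) 12
      omega
    · have hM1 : (1 : ℝ) ≤ ((2 * n1 + 15 : ℕ) : ℝ) := by exact_mod_cast (by omega)
      refine small_m (M := ((2 * n1 + 15 : ℕ) : ℝ)) (v := (v : ℝ)) hM1 hk0 (abs_nonneg _) hε
        (by positivity) (by exact_mod_cast (by omega : i ≤ 2 * n1 + 15)) ?_ ?_ ?_
      · have h1 : |(v : ℝ) - 2 * k| ^ 4 = ((v : ℝ) - 2 * k) ^ 4 := by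
          rw [show (4 : ℕ) = 2 * 2 from rfl, pow_mul, sq_abs, ← pow_mul]
        have h2 : 16 * ((v : ℝ) - 2 * k) ^ 4 ≤ ((k : ℝ) - d - 1) ^ 8 * k ^ 3 := by
          exact_mod_cast m1
        rw [h1]
        refine h2.trans ?_
        apply mul_le_mul_of_nonneg_right _ (by positivity)
        have h3 : ((d + 1 : ℕ) : ℝ) ≤ (k : ℝ) := by exact_mod_cast (by omega)
        have h4 : (k : ℝ) ≤ ((d + (2 * n1 + 15) : ℕ) : ℝ) := by exact_mod_cast (by omega)
        push_cast at h3 h4 ⊢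
        apply pow_le_pow_left₀ (by linarith)
        linarith
      · have := le_abs_self ((v : ℝ) - 2 * k)
        linarith
      · refine hV1.trans ?_
        exact_mod_cast hvV1
  · by_cases hc : 2 * i ≤ k - d + 1 ∧ (2 * i = k - d + 1 → 2 * k ≤ v + 1)
    · obtain ⟨n, rfl⟩ : ∃ n, i = n + 1 := ⟨i - 1, by omega⟩
      obtain ⟨h1, h2⟩ := hn1 Ω Bs v k d n hD hd hB (by omega) (by omega) hm
        (fun h => hc.2 (by omega))
      refine ⟨by omega, ?_⟩
      push_cast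
      refine h2.trans ?_
      apply mul_le_mul_of_nonneg_right _ (by positivity)
      linarith
    · have h1 := beta_co hD (by omega) hB
      have hd' : 0 < v + d - 2 * k := by
        rcases Nat.eq_zero_or_pos (v + d - 2 * k) with h0 | h0
        · exfalso
          obtain ⟨n, rfl⟩ : ∃ n, i = n + 1 := ⟨i - 1, by omega⟩
          have hlow := noda_lower hD hB (by omega)
          obtain ⟨q, hq⟩ : ∃ q, k = d + q := ⟨k - d, by omega⟩
          have e1 : k - d = q := by omega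
          have e2 : v = d + 2 * q := by omega
          have e3 : n + 3 ≤ q := by omega
          rw [e1] at hlow
          rw [e2] at hlow
          obtain ⟨r, hr⟩ : ∃ r, q = n + 3 + r := ⟨q - (n + 3), by omega⟩
          rw [hr] at hlow
          nlinarith
        · exact h0
      obtain ⟨n, hn⟩ : ∃ n, k - d - i + 1 = n + 1 := ⟨k - d - i, by omega⟩
      rw [hn] at h1
      have hkd' : v - k - (v + d - 2 * k) = k - d := by omega
      obtain ⟨g1, g2⟩ := hn1 Ω (co Bs) v (v - k) (v + d - 2 * k) n (design_co hD) hd' h1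
        (by omega) (by omega) (by omega) (fun h => by omega)
      refine ⟨by omega, ?_⟩
      have hck : ((v - k : ℕ) : ℝ) = (v : ℝ) - k := by
        rw [Nat.cast_sub (by omega)]
      rw [hck] at g2
      have e3 : |(v : ℝ) - 2 * ((v : ℝ) - k)| = |(v : ℝ) - 2 * k| := by
        rw [← abs_neg]; congr 1; ring
      rw [e3] at g2
      set D : ℝ := |(v : ℝ) - 2 * k| with hD'
      have hD0 : 0 ≤ D := abs_nonneg _
      have hn0 : (0 : ℝ) ≤ n := by positivity
      have hkk : 0 ≤ (v : ℝ) - k := by rw [← hck]; positivity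
      have hDk : D ≤ ((v : ℝ) - k) / 2 := by
        have : D ≤ ((n : ℝ) + 1) * D := by nlinarith
        have : 4 * ε' * ((v : ℝ) - k) ≤ 1 / 2 * ((v : ℝ) - k) :=
          mul_le_mul_of_nonneg_right (by linarith) hkk
        linarith
      have hk2 : (v : ℝ) - k ≤ 2 * k := by
        have := le_abs_self ((v : ℝ) - 2 * k)
        linarith
      have hi2 : (i : ℝ) ≤ 2 * ((n : ℝ) + 1) := by
        have : i ≤ 2 * (n + 1) := by omega
        exact_mod_cast this
      calc (i : ℝ) * D ≤ 2 * ((n : ℝ) + 1) * D := mul_le_mul_of_nonneg_right hi2 hD0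
        _ = 2 * (((n : ℝ) + 1) * D) := by ring
        _ ≤ 2 * (4 * ε' * ((v : ℝ) - k)) := by linarith
        _ ≤ 2 * (4 * ε' * (2 * k)) := by
          have := mul_le_mul_of_nonneg_left hk2 (by positivity : (0:ℝ) ≤ 4 * ε')
          linarith
        _ = (16 * ε') * k := by ring
        _ ≤ ε * k := mul_le_mul_of_nonneg_right (by linarith) (by linarith)

end Pool.Agent.BetaF
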